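import Mathlib

/-!
The basic matrices `[[p, a], [t a⁻¹, q]]` (`p q = 1 + t`) and words in them.
-/

set_option autoImplicit false

namespace Q28.UM

open Matrix

universe u v

/-- The matrix `[[p, a], [t a⁻¹, q]]`. -/
def Xm {R : Type u} [CommRing R] (p q t : R) (h : p * q = 1 + t) (a : Rˣ) :
    SpecialLinearGroup (Fin 2) R :=
  ⟨!![p, (a : R); t * (↑(a⁻¹) : R), q], by
    rw [det_fin_two_of]
    have : (a : R) * (↑(a⁻¹) : R) = 1 := Units.mul_inv a
    linear_combination h - t * this⟩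

section entries
variable {R : Type u} [CommRing R] (p q t : R) (h : p * q = 1 + t) (a : Rˣ)

theorem Xm00 : (Xm p q t h a).1 0 0 = p := rfl
theorem Xm01 : (Xm p q t h a).1 0 1 = (a : R) := rfl
theorem Xm10 : (Xm p q t h a).1 1 0 = t * (↑(a⁻¹) : R) := rfl
theorem Xm11 : (Xm p q t h a).1 1 1 = q := rfl

end entries

/-- The value of the word `ω`. -/
def fw {R : Type u} [CommRing R] {ι : Type v} (p q t : R) (h : p * q = 1 + t) (θ : ι → Rˣ)
    (ω : FreeGroup ι) : SpecialLinearGroup (Fin 2) R :=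
  FreeGroup.lift (fun i => Xm p q t h (θ i)) ω

/-- The exponent sum. -/
def es {ι : Type v} : FreeGroup ι →* Multiplicative ℤ :=
  FreeGroup.lift (fun _ => Multiplicative.ofAdd (1 : ℤ))

section
variable {R : Type u} [CommRing R] {ι : Type v}

theorem mem_lift {G : Type*} [Group G] (S : Subgroup G) (F : ι → G) (hF : ∀ i, F i ∈ S)
    (ω : FreeGroup ι) : FreeGroup.lift F ω ∈ S := by
  induction ω using FreeGroup.induction_on with
  | C1 => simp [S.one_mem]
  | of i => simpa using hF i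
  | inv_of i _ => simpa using hF i
  | mul x y hx hy => rw [map_mul]; exact S.mul_mem hx hy

theorem lift_prod {G H : Type*} [Group G] [Group H] (F : ι → G) (F' : ι → H) (ω : FreeGroup ι) :
    FreeGroup.lift (fun i => (F i, F' i)) ω = (FreeGroup.lift F ω, FreeGroup.lift F' ω) := by
  induction ω using FreeGroup.induction_on with
  | C1 => simp only [map_one]; rfl
  | of i => simp
  | inv_of i _ => simp
  | mul x y hx hy => rw [map_mul, hx, hy, map_mul, map_mul]; rfl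

/-- Functoriality. -/
theorem fw_map {R' : Type*} [CommRing R'] (φ : R →+* R') (p q t : R) (h : p * q = 1 + t)
    (θ : ι → Rˣ) (ω : FreeGroup ι) (h' : φ p * φ q = 1 + φ t) :
    SpecialLinearGroup.map φ (fw p q t h θ ω) =
      fw (φ p) (φ q) (φ t) h' (fun i => Units.map φ.toMonoidHom (θ i)) ω := by
  unfold fw
  induction ω using FreeGroup.induction_on with
  | C1 => simp
  | of i =>
    simp only [FreeGroup.lift_apply_of]
    apply Subtype.ext
    ext a b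
    fin_cases a <;> fin_cases b
    · change φ p = φ p
      rfl
    · change φ _ = φ _
      rfl
    · change φ (t * _) = φ t * φ _
      rw [map_mul]; rfl
    · change φ q = φ q
      rfl
  | inv_of i ih =>
    rw [map_inv, map_inv, map_inv, ih]
  | mul x y hx hy => rw [map_mul, map_mul, map_mul, hx, hy]

theorem fw_map_apply {R' : Type*} [CommRing R'] (φ : R →+* R') (p q t : R) (h : p * q = 1 + t)
    (θ : ι → Rˣ) (ω : FreeGroup ι) (h' : φ p * φ q = 1 + φ t) (i j : Fin 2) :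
    φ ((fw p q t h θ ω).1 i j) =
      (fw (φ p) (φ q) (φ t) h' (fun i => Units.map φ.toMonoidHom (θ i)) ω).1 i j := by
  rw [← fw_map φ p q t h θ ω h']
  rfl

theorem inv_entries (Y : SpecialLinearGroup (Fin 2) R) :
    (Y⁻¹).1 0 0 = Y.1 1 1 ∧ (Y⁻¹).1 0 1 = - Y.1 0 1 ∧ (Y⁻¹).1 1 0 = - Y.1 1 0 ∧
      (Y⁻¹).1 1 1 = Y.1 0 0 := by
  have h : ((Y⁻¹ : SpecialLinearGroup (Fin 2) R) : Matrix (Fin 2) (Fin 2) R) =
      !![(Y : Matrix (Fin 2) (Fin 2) R) 1 1, -(Y : Matrix (Fin 2) (Fin 2) R) 0 1;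
        -(Y : Matrix (Fin 2) (Fin 2) R) 1 0, (Y : Matrix (Fin 2) (Fin 2) R) 0 0] := by
    rw [Matrix.SpecialLinearGroup.coe_inv, adjugate_fin_two]
  exact ⟨congrFun (congrFun h 0) 0, congrFun (congrFun h 0) 1, congrFun (congrFun h 1) 0,
    congrFun (congrFun h 1) 1⟩

theorem mul_entries (Y Z : SpecialLinearGroup (Fin 2) R) (i j : Fin 2) :
    (Y * Z).1 i j = Y.1 i 0 * Z.1 0 j + Y.1 i 1 * Z.1 1 j := by
  have h := congrFun (congrFun (Matrix.SpecialLinearGroup.coe_mul Y Z) i) j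
  rw [mul_apply, Fin.sum_univ_two] at h
  exact h

theorem det_entries (Y : SpecialLinearGroup (Fin 2) R) :
    Y.1 0 0 * Y.1 1 1 - Y.1 0 1 * Y.1 1 0 = 1 := by
  rw [← det_fin_two]; exact Y.2

/-- The symmetry `(p, q, θ) ↦ (q, p, θ⁻¹)`. -/
theorem fw_symm (p q t : R) (h : p * q = 1 + t) (h' : q * p = 1 + t) (θ : ι → Rˣ)
    (ω : FreeGroup ι) :
    (fw q p t h' (fun i => (θ i)⁻¹) ω).1 0 0 = (fw p q t h θ ω).1 1 1 ∧
    t * (fw q p t h' (fun i => (θ i)⁻¹) ω).1 0 1 = (fw p q t h θ ω).1 1 0 ∧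
    (fw q p t h' (fun i => (θ i)⁻¹) ω).1 1 0 = t * (fw p q t h θ ω).1 0 1 ∧
    (fw q p t h' (fun i => (θ i)⁻¹) ω).1 1 1 = (fw p q t h θ ω).1 0 0 := by
  let S : Subgroup (SpecialLinearGroup (Fin 2) R × SpecialLinearGroup (Fin 2) R) :=
    { carrier := {Y | Y.2.1 0 0 = Y.1.1 1 1 ∧ t * Y.2.1 0 1 = Y.1.1 1 0 ∧
        Y.2.1 1 0 = t * Y.1.1 0 1 ∧ Y.2.1 1 1 = Y.1.1 0 0}
      one_mem' := by simp
      mul_mem' := by
        rintro ⟨Y, Y'⟩ ⟨Z, Z'⟩ ⟨a1, a2, a3, a4⟩ ⟨b1, b2, b3, b4⟩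
        simp only at a1 a2 a3 a4 b1 b2 b3 b4
        refine ⟨?_, ?_, ?_, ?_⟩
        · simp only [Prod.mk_mul_mk, mul_entries]
          rw [a1, b1, b3, ← a2]; ring
        · simp only [Prod.mk_mul_mk, mul_entries]
          rw [a1, b4, ← a2, ← b2]; ring
        · simp only [Prod.mk_mul_mk, mul_entries]
          rw [a3, a4, b1, b3]; ring
        · simp only [Prod.mk_mul_mk, mul_entries]
          rw [a3, a4, b4, ← b2]; ring
      inv_mem' := by
        rintro ⟨Y, Y'⟩ ⟨a1, a2, a3, a4⟩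
        simp only at a1 a2 a3 a4
        obtain ⟨c1, c2, c3, c4⟩ := inv_entries Y
        obtain ⟨d1, d2, d3, d4⟩ := inv_entries Y'
        refine ⟨?_, ?_, ?_, ?_⟩
        · simp only [Prod.inv_mk]; rw [d1, c4, a4]
        · simp only [Prod.inv_mk]; rw [d2, c3, ← a2]; ring
        · simp only [Prod.inv_mk]; rw [d3, c2, a3]; ring
        · simp only [Prod.inv_mk]; rw [d4, c1, a1] }
  have key := mem_lift S (fun i => (Xm p q t h (θ i), Xm q p t h' ((θ i)⁻¹))) (by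
    intro i
    refine ⟨rfl, ?_, ?_, rfl⟩
    · simp [Xm]
    · simp [Xm]) ω
  rw [lift_prod] at key
  exact key

/-- The scaling `θ ↦ c θ`. -/
theorem fw_scale (p q t : R) (h : p * q = 1 + t) (θ : ι → Rˣ) (c : Rˣ) (ω : FreeGroup ι) :
    (fw p q t h (fun i => c * θ i) ω).1 0 0 = (fw p q t h θ ω).1 0 0 ∧
    (fw p q t h (fun i => c * θ i) ω).1 0 1 = c * (fw p q t h θ ω).1 0 1 ∧
    c * (fw p q t h (fun i => c * θ i) ω).1 1 0 = (fw p q t h θ ω).1 1 0 ∧
    (fw p q t h (fun i => c * θ i) ω).1 1 1 = (fw p q t h θ ω).1 1 1 := by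
  let S : Subgroup (SpecialLinearGroup (Fin 2) R × SpecialLinearGroup (Fin 2) R) :=
    { carrier := {Y | Y.2.1 0 0 = Y.1.1 0 0 ∧ Y.2.1 0 1 = c * Y.1.1 0 1 ∧
        c * Y.2.1 1 0 = Y.1.1 1 0 ∧ Y.2.1 1 1 = Y.1.1 1 1}
      one_mem' := by simp
      mul_mem' := by
        rintro ⟨Y, Y'⟩ ⟨Z, Z'⟩ ⟨a1, a2, a3, a4⟩ ⟨b1, b2, b3, b4⟩
        simp only at a1 a2 a3 a4 b1 b2 b3 b4
        refine ⟨?_, ?_, ?_, ?_⟩
        · simp only [Prod.mk_mul_mk, mul_entries]
          rw [a1, b1, a2, ← b3]; ring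
        · simp only [Prod.mk_mul_mk, mul_entries]
          rw [a1, b2, a2, b4]; ring
        · simp only [Prod.mk_mul_mk, mul_entries]
          rw [b1, a4, ← a3, ← b3]; ring
        · simp only [Prod.mk_mul_mk, mul_entries]
          rw [b2, a4, b4, ← a3]; ring
      inv_mem' := by
        rintro ⟨Y, Y'⟩ ⟨a1, a2, a3, a4⟩
        simp only at a1 a2 a3 a4
        obtain ⟨c1, c2, c3, c4⟩ := inv_entries Y
        obtain ⟨d1, d2, d3, d4⟩ := inv_entries Y'
        refine ⟨?_, ?_, ?_, ?_⟩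
        · simp only [Prod.inv_mk]; rw [d1, c1, a4]
        · simp only [Prod.inv_mk]; rw [d2, c2, a2]; ring
        · simp only [Prod.inv_mk]; rw [d3, c3, ← a3]; ring
        · simp only [Prod.inv_mk]; rw [d4, c4, a1] }
  have key := mem_lift S (fun i => (Xm p q t h (θ i), Xm p q t h (c * θ i))) (by
    intro i
    refine ⟨rfl, ?_, ?_, rfl⟩
    · simp [Xm]
    · change (c : R) * (t * (↑((c * θ i)⁻¹) : R)) = t * (↑((θ i)⁻¹) : R)
      rw [_root_.mul_inv_rev, Units.val_mul]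
      have : (c : R) * (↑(c⁻¹) : R) = 1 := Units.mul_inv c
      linear_combination (t * (↑((θ i)⁻¹) : R)) * this) ω
  rw [lift_prod] at key
  exact key

/-- Modulo `t` the matrices are upper triangular. -/
theorem fw_zero (p q t : R) (h : p * q = 1 + t) (ht : t = 0) (θ : ι → Rˣ) (u : Rˣ)
    (hu : (u : R) = p) (hu' : (↑(u⁻¹) : R) = q) (ω : FreeGroup ι) :
    (fw p q t h θ ω).1 1 0 = 0 ∧
    (fw p q t h θ ω).1 0 0 = (↑(u ^ (Multiplicative.toAdd (es ω))) : R) ∧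
    (fw p q t h θ ω).1 1 1 = (↑((u⁻¹) ^ (Multiplicative.toAdd (es ω))) : R) := by
  let S : Subgroup (SpecialLinearGroup (Fin 2) R × Multiplicative ℤ) :=
    { carrier := {Y | Y.1.1 1 0 = 0 ∧ Y.1.1 0 0 = (↑(u ^ (Multiplicative.toAdd Y.2)) : R) ∧
        Y.1.1 1 1 = (↑((u⁻¹) ^ (Multiplicative.toAdd Y.2)) : R)}
      one_mem' := by simp
      mul_mem' := by
        rintro ⟨Y, m⟩ ⟨Z, n⟩ ⟨a1, a2, a3⟩ ⟨b1, b2, b3⟩
        simp only at a1 a2 a3 b1 b2 b3
        refine ⟨?_, ?_, ?_⟩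
        · simp only [Prod.mk_mul_mk, mul_entries]
          rw [a1, b1]; ring
        · simp only [Prod.mk_mul_mk, mul_entries, toAdd_mul, _root_.zpow_add, Units.val_mul]
          rw [a2, b2, b1]; ring
        · simp only [Prod.mk_mul_mk, mul_entries, toAdd_mul, _root_.zpow_add, Units.val_mul]
          rw [a3, b3, a1]; ring
      inv_mem' := by
        rintro ⟨Y, m⟩ ⟨a1, a2, a3⟩
        simp only at a1 a2 a3
        obtain ⟨c1, c2, c3, c4⟩ := inv_entries Y
        refine ⟨?_, ?_, ?_⟩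
        · simp only [Prod.inv_mk]; rw [c3, a1, neg_zero]
        · simp only [Prod.inv_mk, toAdd_inv, _root_.zpow_neg]; rw [c1, a3, _root_.inv_zpow]
        · simp only [Prod.inv_mk, toAdd_inv, _root_.zpow_neg]; rw [c4, a2, _root_.inv_zpow, inv_inv] }
  have key := mem_lift S (fun i => (Xm p q t h (θ i), Multiplicative.ofAdd (1 : ℤ))) (by
    intro i
    refine ⟨?_, ?_, ?_⟩
    · simp [Xm, ht]
    · simp [Xm, hu]
    · simp only [Xm, toAdd_ofAdd, zpow_one]
      simp [hu']) ω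
  rw [lift_prod] at key
  exact key

end

end Q28.UM
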