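import Mathlib
import Pool.Agent.Q28.UM.Mat

set_option autoImplicit false

namespace Q28.UM

universe u v w

theorem fw_congr {R : Type u} [CommRing R] {ι : Type v} {p q t p' q' t' : R} (h : p * q = 1 + t)
    (h' : p' * q' = 1 + t') {θ θ' : ι → Rˣ} (ω : FreeGroup ι) (hp : p = p') (hq : q = q')
    (ht : t = t') (hθ : θ = θ') : fw p q t h θ ω = fw p' q' t' h' θ' ω := by
  subst hp hq ht hθ
  rfl

/-- The evaluation homomorphism. -/
noncomputable def ev {O : Type u} [CommRing O] {R : Type v} [CommRing R] (φ : O →+* R) (p q : R) :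
    Polynomial (Polynomial O) →+* R :=
  Polynomial.eval₂RingHom (Polynomial.eval₂RingHom φ p) q

theorem ev_p {O : Type u} [CommRing O] {R : Type v} [CommRing R] (φ : O →+* R) (p q : R) :
    ev φ p q (Polynomial.C Polynomial.X) = p := by
  simp [ev]

theorem ev_q {O : Type u} [CommRing O] {R : Type v} [CommRing R] (φ : O →+* R) (p q : R) :
    ev φ p q Polynomial.X = q := by
  simp [ev]

theorem ev_C {O : Type u} [CommRing O] {R : Type v} [CommRing R] (φ : O →+* R) (p q : R) (a : O) :
    ev φ p q (Polynomial.C (Polynomial.C a)) = φ a := by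
  simp [ev]

/-- two ring homs from bivariate polynomials agree -/
theorem ev_uniq {O : Type u} [CommRing O] {R : Type v} [CommRing R] (φ : O →+* R) (p q : R)
    (f : Polynomial (Polynomial O) →+* R) (h0 : ∀ a, f (Polynomial.C (Polynomial.C a)) = φ a)
    (h1 : f (Polynomial.C Polynomial.X) = p) (h2 : f Polynomial.X = q) : f = ev φ p q := by
  apply Polynomial.ringHom_ext'
  · apply Polynomial.ringHom_ext'
    · ext a
      simp only [RingHom.comp_apply]
      rw [h0, ev_C]
    · simp only [RingHom.comp_apply]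
      rw [h1, ev_p]
  · rw [h2, ev_q]

/-- The scalars in the bivariate polynomial ring. -/
noncomputable def cc (O : Type u) [CommRing O] : O →+* Polynomial (Polynomial O) :=
  Polynomial.C.comp Polynomial.C

/-- The universal relation. -/
noncomputable def tu (O : Type u) [CommRing O] : Polynomial (Polynomial O) :=
  Polynomial.C Polynomial.X * Polynomial.X - 1

theorem tu_rel (O : Type u) [CommRing O] :
    (Polynomial.C Polynomial.X : Polynomial (Polynomial O)) * Polynomial.X = 1 + tu O := by
  unfold tu; ring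

/-- The universal word value. -/
noncomputable def fu {O : Type u} [CommRing O] {ι : Type v} (θ : ι → Oˣ) (ω : FreeGroup ι) :
    Matrix.SpecialLinearGroup (Fin 2) (Polynomial (Polynomial O)) :=
  fw (Polynomial.C Polynomial.X) Polynomial.X (tu O) (tu_rel O)
    (fun i => Units.map (cc O).toMonoidHom (θ i)) ω

theorem fu_ev {O : Type u} [CommRing O] {ι : Type v} (θ : ι → Oˣ) (ω : FreeGroup ι)
    {R : Type w} [CommRing R] (φ : O →+* R) (p q t : R) (h : p * q = 1 + t) (i j : Fin 2) :
    ev φ p q ((fu θ ω).1 i j) = (fw p q t h (fun i => Units.map φ.toMonoidHom (θ i)) ω).1 i j := by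
  have h' : ev φ p q (Polynomial.C Polynomial.X) * ev φ p q Polynomial.X =
      1 + ev φ p q (tu O) := by
    rw [← map_mul, tu_rel, map_add, map_one]
  have ht : ev φ p q (tu O) = t := by
    have h'' := h'
    rw [ev_p, ev_q, h] at h''
    exact (add_left_cancel h'').symm
  unfold fu
  rw [fw_map_apply (ev φ p q) _ _ _ (tu_rel O) _ ω h']
  have e : fw (ev φ p q (Polynomial.C Polynomial.X)) (ev φ p q Polynomial.X) (ev φ p q (tu O)) h'
      (fun i => Units.map (ev φ p q).toMonoidHom (Units.map (cc O).toMonoidHom (θ i))) ω =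
      fw p q t h (fun i => Units.map φ.toMonoidHom (θ i)) ω := by
    apply fw_congr _ _ _ (ev_p φ p q) (ev_q φ p q) ht
    funext k
    apply Units.ext
    change ev φ p q (cc O (θ k : O)) = φ (θ k : O)
    exact ev_C φ p q _
  exact congrArg (fun Y : Matrix.SpecialLinearGroup (Fin 2) R => Y.1 i j) e

/-- The universal decomposition. -/
theorem univ {O : Type u} [CommRing O] {ι : Type v} (θ : ι → Oˣ) (ω : FreeGroup ι)
    (hω : es ω = Multiplicative.ofAdd (1 : ℤ)) :
    ∃ A B D : Polynomial (Polynomial O),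
      (fu θ ω).1 0 0 = Polynomial.C Polynomial.X + tu O * A ∧
      (fu θ ω).1 1 1 = Polynomial.X + tu O * B ∧
      (fu θ ω).1 1 0 = tu O * D := by
  have key : ∀ (R' : Type u) [CommRing R'] (φ : Polynomial (Polynomial O) →+* R'),
      φ (tu O) = 0 → φ ((fu θ ω).1 0 0) = φ (Polynomial.C Polynomial.X) ∧
        φ ((fu θ ω).1 1 1) = φ Polynomial.X ∧ φ ((fu θ ω).1 1 0) = 0 := by
    intro R' _ φ ht
    have h' : φ (Polynomial.C Polynomial.X) * φ Polynomial.X = 1 + φ (tu O) := by
      rw [← map_mul, tu_rel, map_add, map_one]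
    have h1 : φ (Polynomial.C Polynomial.X) * φ Polynomial.X = 1 := by rw [h', ht, add_zero]
    let U : R'ˣ := ⟨φ (Polynomial.C Polynomial.X), φ Polynomial.X, h1, (mul_comm _ _).trans h1⟩
    have key := fw_zero (φ (Polynomial.C Polynomial.X)) (φ Polynomial.X) (φ (tu O)) h' ht
      (fun i => Units.map φ.toMonoidHom (Units.map (cc O).toMonoidHom (θ i))) U rfl rfl ω
    rw [hω, toAdd_ofAdd, zpow_one, zpow_one] at key
    obtain ⟨k1, k2, k3⟩ := key
    have e := fun i j => fw_map_apply φ _ _ _ (tu_rel O)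
      (fun i => Units.map (cc O).toMonoidHom (θ i)) ω h' i j
    refine ⟨?_, ?_, ?_⟩
    · have := e 0 0
      rw [k2] at this
      exact this
    · have := e 1 1
      rw [k3] at this
      exact this
    · have := e 1 0
      rw [k1] at this
      exact this
  have ht : Ideal.Quotient.mk (Ideal.span {tu O}) (tu O) = 0 :=
    Ideal.Quotient.eq_zero_iff_mem.2 (Ideal.subset_span rfl)
  obtain ⟨k1, k2, k3⟩ := key (Polynomial (Polynomial O) ⧸ Ideal.span {tu O})
    (Ideal.Quotient.mk (Ideal.span {tu O})) ht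
  have dec : ∀ x y : Polynomial (Polynomial O), Ideal.Quotient.mk (Ideal.span {tu O}) x =
      Ideal.Quotient.mk (Ideal.span {tu O}) y → ∃ A, x = y + tu O * A := by
    intro x y hxy
    have h2 : x - y ∈ Ideal.span {tu O} := Ideal.Quotient.eq.1 hxy
    rw [Ideal.mem_span_singleton] at h2
    obtain ⟨A, hA⟩ := h2
    exact ⟨A, by rw [← hA]; ring⟩
  obtain ⟨A, hA⟩ := dec _ _ k1
  obtain ⟨B, hB⟩ := dec _ _ k2
  obtain ⟨D, hD⟩ := dec ((fu θ ω).1 1 0) 0 (by rw [k3, map_zero])
  exact ⟨A, B, D, hA, hB, by rw [hD, zero_add]⟩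

theorem ev_tu {O : Type u} [CommRing O] {R : Type v} [CommRing R] (φ : O →+* R) (p q t : R)
    (h : p * q = 1 + t) : ev φ p q (tu O) = t := by
  unfold tu
  rw [map_sub, map_mul, ev_p, ev_q, map_one, h]; ring

end Q28.UM
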