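import Mathlib
import Pool.Agent.Q28.UM.Univ

set_option autoImplicit false

namespace Q28.UM

open PowerSeries

universe u v w

/-- Evaluations at close points are close. -/
theorem dvd_ev {O : Type u} [CommRing O] {R : Type v} [CommRing R] (φ : O →+* R)
    (p q p' q' d : R) (hp : d ∣ p - p') (hq : d ∣ q - q') (A : Polynomial (Polynomial O)) :
    d ∣ ev φ p q A - ev φ p' q' A := by
  have key : (Ideal.Quotient.mk (Ideal.span {d})).comp (ev φ p q) =
      (Ideal.Quotient.mk (Ideal.span {d})).comp (ev φ p' q') := by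
    rw [ev_uniq ((Ideal.Quotient.mk (Ideal.span {d})).comp φ)
      (Ideal.Quotient.mk (Ideal.span {d}) p') (Ideal.Quotient.mk (Ideal.span {d}) q')
      ((Ideal.Quotient.mk (Ideal.span {d})).comp (ev φ p q)),
      ev_uniq ((Ideal.Quotient.mk (Ideal.span {d})).comp φ)
      (Ideal.Quotient.mk (Ideal.span {d}) p') (Ideal.Quotient.mk (Ideal.span {d}) q')
      ((Ideal.Quotient.mk (Ideal.span {d})).comp (ev φ p' q'))]
    · intro a; simp only [RingHom.comp_apply, ev_C]
    · simp only [RingHom.comp_apply, ev_p]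
    · simp only [RingHom.comp_apply, ev_q]
    · intro a; simp only [RingHom.comp_apply, ev_C]
    · simp only [RingHom.comp_apply, ev_p]
      exact Ideal.Quotient.eq.2 (Ideal.mem_span_singleton.2 hp)
    · simp only [RingHom.comp_apply, ev_q]
      exact Ideal.Quotient.eq.2 (Ideal.mem_span_singleton.2 hq)
  have h1 := RingHom.congr_fun key A
  exact Ideal.mem_span_singleton.1 (Ideal.Quotient.eq.1 h1)

theorem dvd_q {R : Type v} [CommRing R] {p q p' q' : R} (h : p * q = p' * q') (hp : IsUnit p)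
    : (p - p') ∣ (q - q') := by
  obtain ⟨u, hu⟩ := hp
  refine ⟨-(↑(u⁻¹) : R) * q', ?_⟩
  have e : (↑(u⁻¹) : R) * p = 1 := by rw [← hu]; exact Units.inv_mul u
  linear_combination (-(q - q')) * e + (↑(u⁻¹) : R) * h

section
variable {O : Type u} [CommRing O] {ι : Type v} (θ : ι → Oˣ) (ω : FreeGroup ι)

/-- The constant units. -/
noncomputable def cθ : ι → (PowerSeries O)ˣ :=
  fun i => Units.map (PowerSeries.C (R := O)).toMonoidHom (θ i)

theorem cs_unit {P : PowerSeries O} (hP : constantCoeff P = 1) : IsUnit P := by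
  rw [PowerSeries.isUnit_iff_constantCoeff, hP]; exact isUnit_one

/-- All refined difference formulas. -/
theorem diff (hω : es ω = Multiplicative.ofAdd (1 : ℤ)) {P Q P' Q' : PowerSeries O}
    (h : P * Q = 1 + X) (h' : P' * Q' = 1 + X) (hP : constantCoeff P = 1) :
    (∃ η, (fw P Q X h (cθ θ) ω).1 0 0 - (fw P' Q' X h' (cθ θ) ω).1 0 0 =
      (P - P') * (1 + X * η)) ∧
    (∃ η, (fw P Q X h (cθ θ) ω).1 1 1 - (fw P' Q' X h' (cθ θ) ω).1 1 1 =
      (Q - Q') + (P - P') * (X * η)) ∧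
    (∃ η, (fw P Q X h (cθ θ) ω).1 1 0 - (fw P' Q' X h' (cθ θ) ω).1 1 0 =
      (P - P') * (X * η)) := by
  obtain ⟨A, B, D, hA, hB, hD⟩ := univ θ ω hω
  have hd : (P - P') ∣ (Q - Q') := dvd_q (h.trans h'.symm) (cs_unit hP)
  have e := fun i j => fu_ev θ ω (PowerSeries.C (R := O)) P Q X h i j
  have e' := fun i j => fu_ev θ ω (PowerSeries.C (R := O)) P' Q' X h' i j
  have t1 := ev_tu (PowerSeries.C (R := O)) P Q X h
  have t2 := ev_tu (PowerSeries.C (R := O)) P' Q' X h'
  refine ⟨?_, ?_, ?_⟩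
  · obtain ⟨η, hη⟩ := dvd_ev (PowerSeries.C (R := O)) P Q P' Q' _ dvd_rfl hd A
    refine ⟨η, ?_⟩
    have a1 := e 0 0
    have a2 := e' 0 0
    rw [hA, map_add, map_mul, ev_p, t1] at a1
    rw [hA, map_add, map_mul, ev_p, t2] at a2
    change P + X * _ = (fw P Q X h (cθ θ) ω).1 0 0 at a1
    change P' + X * _ = (fw P' Q' X h' (cθ θ) ω).1 0 0 at a2
    rw [← a1, ← a2]
    linear_combination X * hη
  · obtain ⟨η, hη⟩ := dvd_ev (PowerSeries.C (R := O)) P Q P' Q' _ dvd_rfl hd B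
    refine ⟨η, ?_⟩
    have a1 := e 1 1
    have a2 := e' 1 1
    rw [hB, map_add, map_mul, ev_q, t1] at a1
    rw [hB, map_add, map_mul, ev_q, t2] at a2
    change Q + X * _ = (fw P Q X h (cθ θ) ω).1 1 1 at a1
    change Q' + X * _ = (fw P' Q' X h' (cθ θ) ω).1 1 1 at a2
    rw [← a1, ← a2]
    linear_combination X * hη
  · obtain ⟨η, hη⟩ := dvd_ev (PowerSeries.C (R := O)) P Q P' Q' _ dvd_rfl hd D
    refine ⟨η, ?_⟩
    have a1 := e 1 0
    have a2 := e' 1 0
    rw [hD, map_mul, t1] at a1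
    rw [hD, map_mul, t2] at a2
    change X * _ = (fw P Q X h (cθ θ) ω).1 1 0 at a1
    change X * _ = (fw P' Q' X h' (cθ θ) ω).1 1 0 at a2
    rw [← a1, ← a2]
    linear_combination X * hη

/-- The value of the upper left entry at `t = 0`. -/
theorem const00 (hω : es ω = Multiplicative.ofAdd (1 : ℤ)) {P Q : PowerSeries O}
    (h : P * Q = 1 + X) (hP : constantCoeff P = 1) :
    constantCoeff ((fw P Q X h (cθ θ) ω).1 0 0) = 1 := by
  obtain ⟨A, B, D, hA, hB, hD⟩ := univ θ ω hω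
  have a1 := fu_ev θ ω (PowerSeries.C (R := O)) P Q X h 0 0
  rw [hA, map_add, map_mul, ev_p, ev_tu _ P Q X h] at a1
  change P + X * _ = (fw P Q X h (cθ θ) ω).1 0 0 at a1
  rw [← a1, map_add, map_mul, constantCoeff_X, zero_mul, add_zero, hP]

theorem uniq_sol (hω : es ω = Multiplicative.ofAdd (1 : ℤ)) {P Q P' Q' : PowerSeries O}
    (h : P * Q = 1 + X) (h' : P' * Q' = 1 + X) (hP : constantCoeff P = 1)
    (e : (fw P Q X h (cθ θ) ω).1 0 0 = (fw P' Q' X h' (cθ θ) ω).1 0 0) : P = P' ∧ Q = Q' := by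
  obtain ⟨⟨η, hη⟩, -, -⟩ := diff θ ω hω h h' hP
  rw [e, sub_self] at hη
  have hu : IsUnit (1 + X * η) := by
    rw [PowerSeries.isUnit_iff_constantCoeff]
    simp
  have h1 : P - P' = 0 := by
    have := hη.symm
    rwa [hu.mul_left_eq_zero] at this
  obtain ⟨d, hd⟩ := dvd_q (h.trans h'.symm) (cs_unit hP)
  refine ⟨sub_eq_zero.1 h1, sub_eq_zero.1 ?_⟩
  rw [hd, h1, zero_mul]

/-- The partner of `P`. -/
noncomputable def QQ (P : PowerSeries O) : PowerSeries O := (1 + X) * invOfUnit P 1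

theorem QQ_rel {P : PowerSeries O} (hP : constantCoeff P = 1) : P * QQ P = 1 + X := by
  unfold QQ
  have := PowerSeries.mul_invOfUnit P 1 (by rw [hP]; rfl)
  linear_combination (1 + X) * this

theorem exists_sol (hω : es ω = Multiplicative.ofAdd (1 : ℤ)) :
    ∃ (P Q : PowerSeries O) (h : P * Q = 1 + X), constantCoeff P = 1 ∧
      (fw P Q X h (cθ θ) ω).1 0 0 = 1 := by
  let T : Type u := {P : PowerSeries O // constantCoeff P = 1}
  let F : T → PowerSeries O := fun P => (fw P.1 (QQ P.1) X (QQ_rel P.2) (cθ θ) ω).1 0 0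
  have F0 : ∀ P : T, constantCoeff (F P) = 1 := fun P => const00 θ ω hω _ P.2
  let Φ : T → T := fun P => ⟨P.1 + 1 - F P, by rw [map_sub, map_add, map_one, P.2, F0]; ring⟩
  let s : ℕ → T := fun n => Nat.rec (⟨1, map_one _⟩ : T) (fun _ P => Φ P) n
  have s1 : ∀ n, s (n + 1) = Φ (s n) := fun n => rfl
  have hdiff : ∀ P P' : T, ∃ η, F P - F P' = (P.1 - P'.1) * (1 + X * η) := fun P P' =>
    (diff θ ω hω (QQ_rel P.2) (QQ_rel P'.2) P.2).1
  have err : ∀ n, (X : PowerSeries O) ^ n ∣ F (s n) - 1 := by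
    intro n
    induction n with
    | zero => rw [pow_zero]; exact one_dvd _
    | succ n ih =>
      obtain ⟨η, hη⟩ := hdiff (s (n + 1)) (s n)
      have e1 : (s (n + 1)).1 - (s n).1 = 1 - F (s n) := by
        rw [s1]
        change (s n).1 + 1 - F (s n) - (s n).1 = _
        ring
      rw [e1] at hη
      obtain ⟨d, hd⟩ := ih
      refine ⟨-d * η, ?_⟩
      rw [pow_succ]
      linear_combination hη - X * η * hd
  have step : ∀ n, (X : PowerSeries O) ^ n ∣ (s (n + 1)).1 - (s n).1 := by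
    intro n
    have e1 : (s (n + 1)).1 - (s n).1 = -(F (s n) - 1) := by
      rw [s1]
      change (s n).1 + 1 - F (s n) - (s n).1 = _
      ring
    rw [e1, dvd_neg]
    exact err n
  have step' : ∀ n k, (X : PowerSeries O) ^ n ∣ (s (n + k)).1 - (s n).1 := by
    intro n k
    induction k with
    | zero => simp
    | succ k ih =>
      have h1 : (X : PowerSeries O) ^ n ∣ (s (n + k + 1)).1 - (s (n + k)).1 :=
        (pow_dvd_pow X (Nat.le_add_right n k)).trans (step (n + k))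
      have h2 : (s (n + (k + 1))).1 - (s n).1 =
          ((s (n + k + 1)).1 - (s (n + k)).1) + ((s (n + k)).1 - (s n).1) := by
        rw [← add_assoc]; ring
      rw [h2]
      exact dvd_add h1 ih
  let P0 : PowerSeries O := PowerSeries.mk (fun k => coeff k (s (k + 1)).1)
  have hP0 : ∀ n, (X : PowerSeries O) ^ n ∣ P0 - (s n).1 := by
    intro n
    rw [PowerSeries.X_pow_dvd_iff]
    intro m hm
    obtain ⟨k, rfl⟩ : ∃ k, n = m + 1 + k := ⟨n - (m + 1), by omega⟩
    have h1 := (PowerSeries.X_pow_dvd_iff.1 (step' (m + 1) k)) m (Nat.lt_succ_self m)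
    rw [map_sub, PowerSeries.coeff_mk]
    rw [map_sub] at h1
    rw [sub_eq_zero] at h1 ⊢
    exact h1.symm
  have c0 : constantCoeff P0 = 1 := by
    have h1 := hP0 1
    rw [pow_one, PowerSeries.X_dvd_iff, map_sub, (s 1).2, sub_eq_zero] at h1
    exact h1
  refine ⟨P0, QQ P0, QQ_rel c0, c0, ?_⟩
  let PT : T := ⟨P0, c0⟩
  change F PT = 1
  rw [← sub_eq_zero]
  ext m
  have h1 : (X : PowerSeries O) ^ (m + 1) ∣ F PT - 1 := by
    obtain ⟨η, hη⟩ := hdiff PT (s (m + 1))
    have h2 : (X : PowerSeries O) ^ (m + 1) ∣ F PT - F (s (m + 1)) := by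
      rw [hη]
      exact dvd_mul_of_dvd_left (hP0 (m + 1)) _
    have h3 : F PT - 1 = (F PT - F (s (m + 1))) + (F (s (m + 1)) - 1) := by ring
    rw [h3]
    exact dvd_add h2 (err (m + 1))
  rw [map_zero]
  exact (PowerSeries.X_pow_dvd_iff.1 h1) m (Nat.lt_succ_self m)

end

end Q28.UM
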