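import Mathlib
import Pool.Agent.Q28.UM.Series

/-!
Bivariate polynomials with a power series zero, and the parity argument.
-/

set_option autoImplicit false

namespace Q28.UM

open PowerSeries

universe u v w

/-- Conjugation of complex power series. -/
noncomputable abbrev kap : PowerSeries ℂ →+* PowerSeries ℂ := PowerSeries.map (starRingEnd ℂ)

theorem kap_kap (f : PowerSeries ℂ) : kap (kap f) = f := by
  ext n
  simp [kap]

/-- The involution: conjugate the coefficients and swap the variables. -/
noncomputable def sig : Polynomial (Polynomial ℂ) →+* Polynomial (Polynomial ℂ) :=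
  ev ((cc ℂ).comp (starRingEnd ℂ)) Polynomial.X (Polynomial.C Polynomial.X)

theorem sig_C (a : ℂ) : sig (Polynomial.C (Polynomial.C a)) =
    Polynomial.C (Polynomial.C (starRingEnd ℂ a)) := ev_C _ _ _ _

theorem sig_p : sig (Polynomial.C Polynomial.X) = Polynomial.X := ev_p _ _ _

theorem sig_q : sig Polynomial.X = Polynomial.C Polynomial.X := ev_q _ _ _

theorem ev_self : (RingHom.id (Polynomial (Polynomial ℂ))) =
    ev (cc ℂ) (Polynomial.C Polynomial.X) Polynomial.X := by
  apply ev_uniq
  · intro a; rfl
  · rfl
  · rfl

theorem sig_sig (c : Polynomial (Polynomial ℂ)) : sig (sig c) = c := by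
  have h : sig.comp sig = RingHom.id (Polynomial (Polynomial ℂ)) := by
    rw [ev_self]
    apply ev_uniq
    · intro a
      simp only [RingHom.comp_apply, sig_C]
      rw [Complex.conj_conj]; rfl
    · simp only [RingHom.comp_apply, sig_p, sig_q]
    · simp only [RingHom.comp_apply, sig_p, sig_q]
  exact RingHom.congr_fun h c

/-- Evaluation at a point of the hyperbola. -/
noncomputable def ex (x : ℂ) : Polynomial (Polynomial ℂ) →+* ℂ := ev (RingHom.id ℂ) x x⁻¹

theorem ex_sig (x : ℂ) (hx : starRingEnd ℂ x = x⁻¹) (c : Polynomial (Polynomial ℂ)) :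
    ex x (sig c) = starRingEnd ℂ (ex x c) := by
  have h : (ex x).comp sig = (starRingEnd ℂ).comp (ex x) := by
    have h1 : (ex x).comp sig = ev (starRingEnd ℂ) x⁻¹ x := by
      apply ev_uniq
      · intro a
        simp only [RingHom.comp_apply, sig_C]
        exact ev_C _ _ _ _
      · simp only [RingHom.comp_apply, sig_p]
        exact ev_q _ _ _
      · simp only [RingHom.comp_apply, sig_q]
        exact ev_p _ _ _
    have h2 : (starRingEnd ℂ).comp (ex x) = ev (starRingEnd ℂ) x⁻¹ x := by
      apply ev_uniq
      · intro a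
        simp only [RingHom.comp_apply, ex, ev_C, RingHom.id_apply]
      · simp only [RingHom.comp_apply, ex, ev_p]
        exact hx
      · simp only [RingHom.comp_apply, ex, ev_q]
        rw [← hx, Complex.conj_conj]
    rw [h1, h2]
  exact RingHom.congr_fun h c

/-- The evaluation at a pair of power series. -/
noncomputable abbrev EE (P Q : PowerSeries ℂ) : Polynomial (Polynomial ℂ) →+* PowerSeries ℂ :=
  ev (PowerSeries.C (R := ℂ)) P Q

theorem EE_sig (P Q : PowerSeries ℂ) (h : Q = kap P) (c : Polynomial (Polynomial ℂ)) :
    EE P Q (sig c) = kap (EE P Q c) := by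
  have hP : P = kap Q := by rw [h, kap_kap]
  have e : (EE P Q).comp sig = kap.comp (EE P Q) := by
    have h1 : (EE P Q).comp sig = ev ((PowerSeries.C (R := ℂ)).comp (starRingEnd ℂ)) Q P := by
      apply ev_uniq
      · intro a
        simp only [RingHom.comp_apply, sig_C]
        exact ev_C _ _ _ _
      · simp only [RingHom.comp_apply, sig_p]
        exact ev_q _ _ _
      · simp only [RingHom.comp_apply, sig_q]
        exact ev_p _ _ _
    have h2 : kap.comp (EE P Q) = ev ((PowerSeries.C (R := ℂ)).comp (starRingEnd ℂ)) Q P := by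
      apply ev_uniq
      · intro a
        simp only [RingHom.comp_apply, EE, ev_C]
        exact PowerSeries.map_C _ _
      · simp only [RingHom.comp_apply, EE, ev_p]
        exact h.symm
      · simp only [RingHom.comp_apply, EE, ev_q]
        exact hP.symm
    rw [h1, h2]
  exact RingHom.congr_fun e c

theorem const_EE (P Q : PowerSeries ℂ) (hP : constantCoeff P = 1) (hQ : constantCoeff Q = 1)
    (c : Polynomial (Polynomial ℂ)) : constantCoeff (EE P Q c) = ex 1 c := by
  have e : (constantCoeff (R := ℂ)).comp (EE P Q) = ex 1 := by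
    unfold ex
    apply ev_uniq
    · intro a
      simp only [RingHom.comp_apply, EE, ev_C, RingHom.id_apply]
      exact PowerSeries.constantCoeff_C a
    · simp only [RingHom.comp_apply, EE, ev_p]; exact hP
    · simp only [RingHom.comp_apply, EE, ev_q]; rw [hQ, inv_one]
  exact RingHom.congr_fun e c

/-- A power series algebraic over the constants is constant. -/
theorem alg_const (P : PowerSeries ℂ) (r : Polynomial ℂ) (hr : r ≠ 0)
    (h : Polynomial.eval₂ (PowerSeries.C (R := ℂ)) P r = 0) : ∃ α : ℂ, P = PowerSeries.C α := by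
  have hs := IsAlgClosed.splits r
  have e := hs.eq_prod_roots
  rw [e, Polynomial.eval₂_mul, Polynomial.eval₂_C] at h
  rcases mul_eq_zero.1 h with h1 | h1
  · exfalso
    have : r.leadingCoeff = 0 := PowerSeries.C_injective (h1.trans (map_zero _).symm)
    exact hr (Polynomial.leadingCoeff_eq_zero.1 this)
  · rw [Polynomial.eval₂_multiset_prod, Multiset.prod_eq_zero_iff, Multiset.map_map,
      Multiset.mem_map] at h1
    obtain ⟨α, -, hα⟩ := h1
    refine ⟨α, ?_⟩
    simp only [Function.comp_apply, Polynomial.eval₂_sub, Polynomial.eval₂_X,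
      Polynomial.eval₂_C] at hα
    exact sub_eq_zero.1 hα

end Q28.UM
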