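import Mathlib
import Pool.Agent.Q28.UM.Key1

/-!
The parity argument.
-/

set_option autoImplicit false

namespace Q28.UM

open PowerSeries

universe u v w

/-- Two irreducible bivariate polynomials with a common transcendental zero divide each other. -/
theorem dvd_of_common (P Q : PowerSeries ℂ)
    (hP : ∀ r : Polynomial ℂ, EE P Q (Polynomial.C r) = 0 → r = 0)
    (c d : Polynomial (Polynomial ℂ)) (hc : Irreducible c) (hd : Irreducible d)
    (ec : EE P Q c = 0) (ed : EE P Q d = 0) : c ∣ d := by
  have deg : ∀ c : Polynomial (Polynomial ℂ), Irreducible c → EE P Q c = 0 →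
      c.natDegree ≠ 0 := by
    intro c hc ec h0
    rw [Polynomial.natDegree_eq_zero] at h0
    obtain ⟨r, rfl⟩ := h0
    have := hP r ec
    rw [this, Polynomial.C_0] at hc
    exact hc.ne_zero rfl
  have pc := hc.isPrimitive (deg c hc ec)
  have pd := hd.isPrimitive (deg d hd ed)
  let K := FractionRing (Polynomial ℂ)
  let L := FractionRing (PowerSeries ℂ)
  have ic := (pc.irreducible_iff_irreducible_map_fraction_map (K := K)).1 hc
  apply pc.dvd_of_fraction_map_dvd_fraction_map (K := K)
  rcases ic.isCoprime_or_dvd (d.map (algebraMap (Polynomial ℂ) K)) with h | h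
  swap
  · exact h
  exfalso
  let j : Polynomial ℂ →+* L :=
    (algebraMap (PowerSeries ℂ) L).comp ((EE P Q).comp Polynomial.C)
  have hj : Function.Injective j := by
    rw [injective_iff_map_eq_zero]
    intro r hr
    apply hP
    exact (IsFractionRing.injective (PowerSeries ℂ) L) (hr.trans (map_zero _).symm)
  let J : K →+* L := IsFractionRing.lift hj
  have hJ : J.comp (algebraMap (Polynomial ℂ) K) = j := by
    ext1
    · ext a
      simp only [RingHom.comp_apply]
      exact IsFractionRing.lift_algebraMap hj _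
    · simp only [RingHom.comp_apply]
      exact IsFractionRing.lift_algebraMap hj _
  let y : L := algebraMap (PowerSeries ℂ) L Q
  have hev : ∀ c : Polynomial (Polynomial ℂ),
      Polynomial.eval₂ J y (c.map (algebraMap (Polynomial ℂ) K)) =
        algebraMap (PowerSeries ℂ) L (EE P Q c) := by
    intro c
    rw [Polynomial.eval₂_map, hJ]
    have : (Polynomial.eval₂RingHom j y) = (algebraMap (PowerSeries ℂ) L).comp (EE P Q) := by
      apply Polynomial.ringHom_ext'
      · apply RingHom.ext
        intro r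
        simp [j]
      · simp only [RingHom.comp_apply, Polynomial.coe_eval₂RingHom, Polynomial.eval₂_X]
        rw [ev_q]
    exact RingHom.congr_fun this c
  obtain ⟨a, b, hab⟩ := h
  have h1 := congrArg (Polynomial.eval₂ J y) hab
  rw [Polynomial.eval₂_add, Polynomial.eval₂_mul, Polynomial.eval₂_mul, hev, hev, ec, ed,
    map_zero, mul_zero, mul_zero, add_zero, Polynomial.eval₂_one] at h1
  exact zero_ne_one h1

/-- Evaluations on the hyperbola are Laurent polynomials. -/
theorem laurent (c : Polynomial (Polynomial ℂ)) :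
    ∃ (n : ℕ) (H : Polynomial ℂ), ∀ x : ℂ, x ≠ 0 → H.eval x = x ^ n * ex x c := by
  refine ⟨c.natDegree, ∑ k ∈ Finset.range (c.natDegree + 1),
    c.coeff k * Polynomial.X ^ (c.natDegree - k), ?_⟩
  intro x hx
  have h1 : ex x c = ∑ k ∈ Finset.range (c.natDegree + 1), (c.coeff k).eval x * (x⁻¹) ^ k := by
    change Polynomial.eval₂ (Polynomial.eval₂RingHom (RingHom.id ℂ) x) x⁻¹ c = _
    rw [Polynomial.eval₂_eq_sum_range]
    rfl
  rw [h1, Polynomial.eval_finsetSum, Finset.mul_sum]
  apply Finset.sum_congr rfl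
  intro k hk
  rw [Finset.mem_range] at hk
  rw [Polynomial.eval_mul, Polynomial.eval_pow, Polynomial.eval_X]
  have h2 : x ^ c.natDegree = x ^ (c.natDegree - k) * x ^ k := by
    rw [← pow_add]; congr 1; omega
  rw [h2, inv_pow]
  field_simp

/-- The arithmetic at the end. -/
theorem final_contra (κ ε a b : ℂ) (n i : ℕ) (hκ : κ ≠ 0)
    (ha : starRingEnd ℂ a = ε * a) (hb : starRingEnd ℂ b = ε * b)
    (h1 : (-1 : ℂ) ^ n * a = (-1 - 1) * (κ * (-1) ^ i))
    (h2 : Complex.I ^ n * b = (Complex.I - 1) * (κ * Complex.I ^ i)) : False := by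
  have c1 := congrArg (starRingEnd ℂ) h1
  have c2 := congrArg (starRingEnd ℂ) h2
  simp only [map_mul, map_pow, map_sub, map_neg, map_one, ha, hb, Complex.conj_I] at c1 c2
  set κ' := starRingEnd ℂ κ with hκ'
  have sq : ((-1 : ℂ) ^ i) * (-1) ^ i = 1 := by rw [← mul_pow]; norm_num
  have sqn : ((-1 : ℂ) ^ n) * (-1) ^ n = 1 := by rw [← mul_pow]; norm_num
  have e1 : κ' = ε * κ := by
    have : (-1 - 1) * (κ' * (-1) ^ i) = ε * ((-1 - 1) * (κ * (-1) ^ i)) := by
      rw [← c1, ← h1]; ring
    have h3 : (κ' - ε * κ) * (((-1 : ℂ) ^ i) * (-1) ^ i) = 0 := by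
      linear_combination (-(1 / 2 : ℂ)) * (-1) ^ i * this
    rw [sq, mul_one] at h3
    exact sub_eq_zero.1 h3
  have hκ0 : κ' ≠ 0 := by rw [hκ']; simpa using hκ
  have hε : ε ≠ 0 := by
    rintro rfl
    rw [zero_mul] at e1
    exact hκ0 e1
  have hI : (-Complex.I) ^ n = (-1) ^ n * Complex.I ^ n := by rw [← mul_pow]; ring
  have hI' : (-Complex.I) ^ i = (-1) ^ i * Complex.I ^ i := by rw [← mul_pow]; ring
  rw [hI, hI', e1] at c2
  have e2 : ((-1 : ℂ) ^ n * (Complex.I - 1) - (-Complex.I - 1) * (-1) ^ i) *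
      (ε * (κ * Complex.I ^ i)) = 0 := by
    linear_combination c2 - (-1 : ℂ) ^ n * ε * h2
  have e3 : ε * (κ * Complex.I ^ i) ≠ 0 :=
    mul_ne_zero hε (mul_ne_zero hκ (pow_ne_zero _ Complex.I_ne_zero))
  have e4 := (mul_eq_zero.1 e2).resolve_right e3
  rcases neg_one_pow_eq_or ℂ n with h | h <;> rcases neg_one_pow_eq_or ℂ i with h' | h' <;>
    rw [h, h'] at e4
  · have := congrArg Complex.im e4
    norm_num at this
  · have := congrArg Complex.re e4
    norm_num at this
  · have := congrArg Complex.re e4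
    norm_num at this
  · have := congrArg Complex.im e4
    norm_num at this

end Q28.UM
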