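import Mathlib
import Pool.Agent.Q28.UM.Key2

/-!
The key proposition over the complex numbers.
-/

set_option autoImplicit false

namespace Q28.UM

open PowerSeries

universe u v w

section
variable {ι : Type v} (θ : ι → ℂˣ) (hθ : ∀ i, starRingEnd ℂ (θ i : ℂ) = (↑((θ i)⁻¹) : ℂ))
  (ω : FreeGroup ι) (hω : es ω = Multiplicative.ofAdd (1 : ℤ))
  {P Q : PowerSeries ℂ} (h : P * Q = 1 + X) (hP : constantCoeff P = 1)
  (h00 : (fw P Q X h (cθ θ) ω).1 0 0 = 1)

theorem kap_rel (h : P * Q = 1 + X) : kap Q * kap P = 1 + X := by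
  rw [← map_mul, mul_comm Q P, h, map_add, map_one, PowerSeries.map_X]

include hθ in
/-- The values at the conjugate pair. -/
theorem conj_vals :
    (fw (kap Q) (kap P) X (kap_rel h) (cθ θ) ω).1 0 0 = kap ((fw P Q X h (cθ θ) ω).1 1 1) ∧
    X * (fw (kap Q) (kap P) X (kap_rel h) (cθ θ) ω).1 0 1 =
      kap ((fw P Q X h (cθ θ) ω).1 1 0) ∧
    (fw (kap Q) (kap P) X (kap_rel h) (cθ θ) ω).1 1 0 =
      X * kap ((fw P Q X h (cθ θ) ω).1 0 1) ∧
    (fw (kap Q) (kap P) X (kap_rel h) (cθ θ) ω).1 1 1 = kap ((fw P Q X h (cθ θ) ω).1 0 0) := by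
  have h1 : kap P * kap Q = 1 + X := by rw [mul_comm]; exact kap_rel h
  have s := fw_symm (kap P) (kap Q) X h1 (kap_rel h) (fun i => (cθ θ i)⁻¹) ω
  simp only [inv_inv] at s
  have hX : kap X = X := PowerSeries.map_X _
  have h2 : kap P * kap Q = 1 + kap X := by rw [hX]; exact h1
  have m := fun i j => fw_map_apply kap P Q X h (cθ θ) ω h2 i j
  have e : fw (kap P) (kap Q) (kap X) h2 (fun i => Units.map kap.toMonoidHom (cθ θ i)) ω =
      fw (kap P) (kap Q) X h1 (fun i => (cθ θ i)⁻¹) ω := by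
    apply fw_congr _ _ _ rfl rfl hX
    funext i
    rw [eq_comm, _root_.inv_eq_iff_mul_eq_one]
    apply Units.ext
    change (PowerSeries.C (θ i : ℂ)) * (kap (PowerSeries.C (θ i : ℂ))) = 1
    rw [PowerSeries.map_C, ← map_mul, hθ, Units.mul_inv, map_one]
  rw [e] at m
  simp only [m]
  exact s

include hθ hω hP h00 in
/-- The difference between `Q` and the conjugate of `P`. -/
theorem diff_Q : ∃ u : PowerSeries ℂ, IsUnit u ∧
    Q - kap P = (fw P Q X h (cθ θ) ω).1 0 1 * (fw P Q X h (cθ θ) ω).1 1 0 * u := by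
  obtain ⟨v1, v2, v3, v4⟩ := conj_vals θ hθ ω h
  obtain ⟨-, ⟨η, hη⟩, -⟩ := diff θ ω hω h (kap_rel h) hP
  rw [v4, h00, map_one] at hη
  have hd := det_entries (fw P Q X h (cθ θ) ω)
  rw [h00, one_mul] at hd
  have hQ : constantCoeff Q = 1 := by
    have := congrArg (constantCoeff (R := ℂ)) h
    rw [map_mul, hP, one_mul, map_add, map_one, constantCoeff_X, add_zero] at this
    exact this
  obtain ⟨δ, hδ⟩ := dvd_q (p := Q) (q := P) (p' := kap P) (q' := kap Q)
    (by rw [mul_comm, h, mul_comm, kap_rel h]) (cs_unit hQ)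
  have hu : IsUnit (1 + X * (δ * η)) := by
    rw [PowerSeries.isUnit_iff_constantCoeff]; simp
  obtain ⟨u, hu'⟩ := hu
  refine ⟨(↑(u⁻¹) : PowerSeries ℂ), Units.isUnit _, ?_⟩
  have e1 : (fw P Q X h (cθ θ) ω).1 0 1 * (fw P Q X h (cθ θ) ω).1 1 0 = (Q - kap P) * u := by
    rw [hu']
    linear_combination hη - hd + X * η * hδ
  rw [e1, mul_assoc, Units.mul_inv, mul_one]

include hθ hω hP h00 in
/-- The lower left entry is `X` times the conjugate of the upper right entry, up to a unit. -/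
theorem lower_left : ∃ v : PowerSeries ℂ, IsUnit v ∧
    (fw P Q X h (cθ θ) ω).1 1 0 = X * kap ((fw P Q X h (cθ θ) ω).1 0 1) * v := by
  obtain ⟨v1, v2, v3, v4⟩ := conj_vals θ hθ ω h
  obtain ⟨u, -, hu⟩ := diff_Q θ hθ ω hω h hP h00
  obtain ⟨-, -, ⟨η, hη⟩⟩ := diff θ ω hω h (kap_rel h) hP
  have hQ : constantCoeff Q = 1 := by
    have := congrArg (constantCoeff (R := ℂ)) h
    rw [map_mul, hP, one_mul, map_add, map_one, constantCoeff_X, add_zero] at this
    exact this
  obtain ⟨δ, hδ⟩ := dvd_q (p := Q) (q := P) (p' := kap P) (q' := kap Q)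
    (by rw [mul_comm, h, mul_comm, kap_rel h]) (cs_unit hQ)
  rw [v3] at hη
  set a := (fw P Q X h (cθ θ) ω).1 0 1
  set c := (fw P Q X h (cθ θ) ω).1 1 0
  have hw : IsUnit (1 - X * (a * u * δ * η)) := by
    rw [PowerSeries.isUnit_iff_constantCoeff]; simp
  obtain ⟨w, hw'⟩ := hw
  refine ⟨(↑(w⁻¹) : PowerSeries ℂ), Units.isUnit _, ?_⟩
  have e1 : X * kap a = c * (w : PowerSeries ℂ) := by
    rw [hw']
    linear_combination -hη - X * η * hδ - X * η * δ * hu
  rw [e1, mul_assoc, Units.mul_inv, mul_one]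

include hθ hω hP h00 in
/-- The upper right entry does not vanish. -/
theorem upper_right_ne : (fw P Q X h (cθ θ) ω).1 0 1 ≠ 0 := by
  intro ha
  obtain ⟨u, -, hu⟩ := diff_Q θ hθ ω hω h hP h00
  rw [ha, zero_mul, zero_mul, sub_eq_zero] at hu
  -- the polynomial
  obtain ⟨A, B, D, hA, -, -⟩ := univ θ ω hω
  let Φ : Polynomial (Polynomial ℂ) := (fu θ ω).1 0 0 - 1
  have hΦ : EE P Q Φ = 0 := by
    have := fu_ev θ ω (PowerSeries.C (R := ℂ)) P Q X h 0 0
    change ev _ _ _ _ = (fw P Q X h (cθ θ) ω).1 0 0 at this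
    rw [h00] at this
    change EE P Q ((fu θ ω).1 0 0 - 1) = 0
    rw [map_sub, map_one, this, sub_self]
  have hex : ∀ x : ℂ, x ≠ 0 → ex x Φ = x - 1 := by
    intro x hx
    have h1 : x * x⁻¹ = 1 + 0 := by rw [mul_inv_cancel₀ hx, add_zero]
    have h2 : ex x ((fu θ ω).1 0 0) = x := by
      rw [hA, map_add, map_mul]
      unfold ex
      rw [ev_p, ev_tu _ _ _ _ h1, zero_mul, add_zero]
    change ex x ((fu θ ω).1 0 0 - 1) = _
    rw [map_sub, map_one, h2]
  have hΦ0 : Φ ≠ 0 := by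
    intro h0
    have := hex (-1) (by norm_num)
    rw [h0, map_zero] at this
    norm_num at this
  have hQ : constantCoeff Q = 1 := by
    have := congrArg (constantCoeff (R := ℂ)) h
    rw [map_mul, hP, one_mul, map_add, map_one, constantCoeff_X, add_zero] at this
    exact this
  have htr : ∀ r : Polynomial ℂ, EE P Q (Polynomial.C r) = 0 → r = 0 := by
    intro r hr
    by_contra hr0
    have h1 : EE P Q (Polynomial.C r) = Polynomial.eval₂ (PowerSeries.C (R := ℂ)) P r := by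
      simp [EE, ev]
    rw [h1] at hr
    obtain ⟨α, hα⟩ := alg_const P r hr0 hr
    rw [hα, PowerSeries.constantCoeff_C] at hP
    rw [hP, map_one] at hα
    have h2 : Q = 1 := by rw [hu, hα, map_one]
    rw [hα, h2, one_mul] at h
    have h3 := congrArg (coeff 1) h
    rw [map_add, PowerSeries.coeff_one_X, PowerSeries.coeff_one] at h3
    norm_num at h3
  -- an irreducible factor
  obtain ⟨c, hc, ⟨g, hg⟩, ec⟩ : ∃ c, Irreducible c ∧ c ∣ Φ ∧ EE P Q c = 0 := by
    obtain ⟨f, hf, hf'⟩ := UniqueFactorizationMonoid.exists_prime_factors Φ hΦ0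
    have h1 : EE P Q f.prod = 0 := by
      obtain ⟨y, hy⟩ := hf'
      have : EE P Q f.prod * EE P Q (y : Polynomial (Polynomial ℂ)) = 0 := by
        rw [← map_mul, hy, hΦ]
      rcases mul_eq_zero.1 this with h2 | h2
      · exact h2
      · exfalso
        have h3 : IsUnit (EE P Q (y : Polynomial (Polynomial ℂ))) := (Units.isUnit y).map _
        rw [h2] at h3
        exact not_isUnit_zero h3
    rw [map_multiset_prod, Multiset.prod_eq_zero_iff, Multiset.mem_map] at h1
    obtain ⟨c, hcf, hc0⟩ := h1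
    refine ⟨c, (hf c hcf).irreducible, ?_, hc0⟩
    exact (Multiset.dvd_prod hcf).trans hf'.dvd
  have esc : EE P Q (sig c) = 0 := by
    rw [EE_sig P Q hu, ec, map_zero]
  have hsc : Irreducible (sig c) := by
    let E : Polynomial (Polynomial ℂ) ≃+* Polynomial (Polynomial ℂ) :=
      { sig with
        invFun := sig
        left_inv := sig_sig
        right_inv := sig_sig }
    exact (MulEquiv.irreducible_iff E.toMulEquiv (x := c)).2 hc
  obtain ⟨e, he⟩ := dvd_of_common P Q htr c (sig c) hc hsc ec esc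
  have heu : IsUnit e := (hsc.isUnit_or_isUnit he).resolve_left hc.not_isUnit
  obtain ⟨r, hr, rfl⟩ := Polynomial.isUnit_iff.1 heu
  obtain ⟨ε, hε, rfl⟩ := Polynomial.isUnit_iff.1 hr
  have hconj : ∀ x : ℂ, starRingEnd ℂ x = x⁻¹ → starRingEnd ℂ (ex x c) = ε * ex x c := by
    intro x hx
    rw [← ex_sig x hx c, he, map_mul, mul_comm]
    congr 1
    exact ev_C _ _ _ _
  -- Laurent polynomials
  obtain ⟨n, H, hH⟩ := laurent c
  obtain ⟨m, G, hG⟩ := laurent g
  have hHG : H * G = Polynomial.X ^ (n + m) * (Polynomial.X - Polynomial.C 1) := by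
    apply Polynomial.eq_of_infinite_eval_eq
    apply Set.Infinite.mono (s := {x : ℂ | x ≠ 0})
    · intro x hx
      change x ≠ 0 at hx
      change Polynomial.eval x (H * G) = _
      rw [Polynomial.eval_mul, hH x hx, hG x hx, Polynomial.eval_mul, Polynomial.eval_pow,
        Polynomial.eval_sub, Polynomial.eval_X, Polynomial.eval_C, pow_add]
      have h1 := hex x hx
      rw [hg, map_mul] at h1
      rw [← h1]; ring
    · have : {x : ℂ | x ≠ 0} = ({0} : Set ℂ)ᶜ := by ext x; simp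
      rw [this]
      exact (Set.finite_singleton (0 : ℂ)).infinite_compl
  have hH1 : H.eval 1 = 0 := by
    rw [hH 1 one_ne_zero, one_pow, one_mul, ← const_EE P Q hP hQ c, ec, map_zero]
  obtain ⟨H1, hH1'⟩ := Polynomial.dvd_iff_isRoot.2 hH1
  have hcan : H1 * G = Polynomial.X ^ (n + m) := by
    have hx : (Polynomial.X - Polynomial.C (1 : ℂ)) ≠ 0 := Polynomial.X_sub_C_ne_zero 1
    apply mul_left_cancel₀ hx
    rw [← mul_assoc, ← hH1', hHG, mul_comm]
  obtain ⟨i, -, hi⟩ := (dvd_prime_pow Polynomial.prime_X (n + m)).1 ⟨G, hcan.symm⟩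
  obtain ⟨y, hy⟩ := hi.symm
  obtain ⟨κ, hκ, hκ'⟩ := Polynomial.isUnit_iff.1 y.isUnit
  have hval : ∀ x : ℂ, x ≠ 0 → x ^ n * ex x c = (x - 1) * (κ * x ^ i) := by
    intro x hx
    rw [← hH x hx, hH1', ← hy, ← hκ']
    simp only [Polynomial.eval_mul, Polynomial.eval_sub, Polynomial.eval_X, Polynomial.eval_C,
      Polynomial.eval_pow]
    ring
  exact final_contra κ ε (ex (-1) c) (ex Complex.I c) n i hκ.ne_zero
    (hconj (-1) (by norm_num)) (hconj Complex.I (by rw [Complex.conj_I, Complex.inv_I]))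
    (hval (-1) (by norm_num)) (hval Complex.I Complex.I_ne_zero)

end

end Q28.UM
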