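import Mathlib
import Pool.Agent.Q28.UM.Key3

/-!
The independence theorem over the integral group ring.
-/

set_option autoImplicit false

namespace Q28.UM

open PowerSeries

universe u v w

section chars

/-- The homomorphism from the rationals to the circle. -/
noncomputable def ratC : ℚ →+ Additive Circle where
  toFun x := Additive.ofMul (Circle.exp (2 * Real.pi * (x : ℝ)))
  map_zero' := by simp
  map_add' x y := by
    rw [← ofMul_mul, ← Circle.exp_add]
    congr 2
    push_cast
    ring

theorem ratC_one : ratC 1 = 0 := by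
  change Additive.ofMul (Circle.exp (2 * Real.pi * ((1 : ℚ) : ℝ))) = 0
  rw [Rat.cast_one, mul_one, Circle.exp_two_pi, ofMul_one]

theorem ratC_ker (x : ℚ) (h : ratC x = 0) : ∃ m : ℤ, x = m := by
  change Additive.ofMul (Circle.exp (2 * Real.pi * (x : ℝ))) = 0 at h
  have h1 : Circle.exp (2 * Real.pi * (x : ℝ)) = Circle.exp 0 := by
    rw [Circle.exp_zero]; exact h
  obtain ⟨m, hm⟩ := Circle.exp_eq_exp.1 h1
  refine ⟨m, ?_⟩
  have hp : (2 * Real.pi : ℝ) ≠ 0 := by positivity
  have h2 : (x : ℝ) = m := by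
    rw [zero_add, mul_comm] at hm
    exact mul_right_cancel₀ hp hm
  exact_mod_cast h2

/-- Characters separate points. -/
theorem exists_char {Q : Type u} [CommGroup Q] (g : Q) (hg : g ≠ 1) :
    ∃ χ : Q →* Circle, χ g ≠ 1 := by
  obtain ⟨c, hc⟩ := CharacterModule.exists_character_apply_ne_zero_of_ne_zero
    (A := Additive Q) (a := Additive.ofMul g) (by simpa using hg)
  let f : AddCircle (1 : ℚ) →+ Additive Circle :=
    QuotientAddGroup.lift (AddSubgroup.zmultiples (1 : ℚ)) ratC (by
      intro x hx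
      obtain ⟨m, rfl⟩ := AddSubgroup.mem_zmultiples_iff.1 hx
      rw [AddMonoidHom.mem_ker, map_zsmul, ratC_one, smul_zero])
  have hf : ∀ y, f y = 0 → y = 0 := by
    intro y
    induction y using QuotientAddGroup.induction_on with
    | H x =>
      intro hx
      change ratC x = 0 at hx
      obtain ⟨m, hm⟩ := ratC_ker x hx
      rw [QuotientAddGroup.eq_zero_iff, AddSubgroup.mem_zmultiples_iff]
      exact ⟨m, by rw [hm]; simp⟩
  let χ0 : Additive Q →+ Additive Circle := f.comp (c : Additive Q →+ AddCircle (1 : ℚ))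
  refine ⟨AddMonoidHom.toMultiplicative χ0, ?_⟩
  intro h1
  apply hc
  apply hf
  exact h1

variable {Q : Type u} [CommGroup Q]

/-- The ring homomorphism of a character. -/
noncomputable def hat (χ : Q →* Circle) : MonoidAlgebra ℤ Q →+* ℂ :=
  (MonoidAlgebra.lift ℤ ℂ Q (Circle.coeHom.comp χ)).toRingHom

theorem hat_apply (χ : Q →* Circle) (r : MonoidAlgebra ℤ Q) :
    hat χ r = r.coeff.sum fun g n => (n : ℂ) * ((χ g : Circle) : ℂ) := by
  change MonoidAlgebra.lift ℤ ℂ Q (Circle.coeHom.comp χ) r = _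
  rw [MonoidAlgebra.lift_apply']
  rfl

theorem hat_of (χ : Q →* Circle) (g : Q) : hat χ (MonoidAlgebra.of ℤ Q g) = (χ g : ℂ) := by
  change MonoidAlgebra.lift ℤ ℂ Q (Circle.coeHom.comp χ) (MonoidAlgebra.of ℤ Q g) = _
  rw [MonoidAlgebra.lift_of]
  rfl

/-- Characters separate the group ring. -/
theorem hat_sep (r : MonoidAlgebra ℤ Q) (h : ∀ χ : Q →* Circle, hat χ r = 0) : r = 0 := by
  let ε : Q → ((Q →* Circle) →* ℂ) := fun g =>
    { toFun := fun χ => ((χ g : Circle) : ℂ)
      map_one' := by simp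
      map_mul' := by intro a b; simp }
  have hε : Function.Injective ε := by
    intro g k hgk
    by_contra hne
    obtain ⟨χ, hχ⟩ := exists_char (g * k⁻¹) (by rwa [Ne, mul_inv_eq_one])
    apply hχ
    have h1 : ((χ g : Circle) : ℂ) = ((χ k : Circle) : ℂ) := DFunLike.congr_fun hgk χ
    have h2 : χ g = χ k := Circle.coe_injective h1
    rw [map_mul, map_inv, h2, mul_inv_cancel]
  have hli := (linearIndependent_monoidHom (Q →* Circle) ℂ).comp ε hε
  rw [linearIndependent_iff'] at hli
  have h1 := hli r.coeff.support (fun g => ((r.coeff g : ℤ) : ℂ)) (by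
    funext χ
    have := h χ
    rw [hat_apply, Finsupp.sum] at this
    simp only [Finset.sum_apply, Pi.smul_apply, smul_eq_mul, Function.comp_apply, Pi.zero_apply]
    exact this)
  apply MonoidAlgebra.ext
  apply Finsupp.ext
  intro g
  by_cases hg : g ∈ r.coeff.support
  · have := h1 g hg
    simpa using this
  · simpa using Finsupp.notMem_support_iff.1 hg

end chars

section
variable {Q : Type u} [CommGroup Q]

/-- The canonical units. -/
noncomputable def ϑ : Q → (MonoidAlgebra ℤ Q)ˣ :=
  fun g => Units.map (MonoidAlgebra.of ℤ Q) (toUnits g)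

theorem ϑ_val (g : Q) : ((ϑ g : (MonoidAlgebra ℤ Q)ˣ) : MonoidAlgebra ℤ Q) =
    MonoidAlgebra.of ℤ Q g := rfl

theorem ϑ_mul (g k : Q) : ϑ (g * k) = ϑ g * ϑ k := by
  apply Units.ext
  rw [Units.val_mul, ϑ_val, ϑ_val, ϑ_val, map_mul]

variable (ω : FreeGroup Q) (hω : es ω = Multiplicative.ofAdd (1 : ℤ))
  {P S : PowerSeries (MonoidAlgebra ℤ Q)} (h : P * S = 1 + X) (hP : constantCoeff P = 1)
  (h00 : (fw P S X h (cθ ϑ) ω).1 0 0 = 1)

/-- The complex units of a character. -/
noncomputable def cu (χ : Q →* Circle) : Q → ℂˣ := fun g => Circle.toUnits (χ g)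

theorem cu_conj (χ : Q →* Circle) (g : Q) :
    starRingEnd ℂ (cu χ g : ℂ) = (↑((cu χ g)⁻¹) : ℂ) := by
  change starRingEnd ℂ ((χ g : Circle) : ℂ) = _
  rw [← Circle.coe_inv_eq_conj]
  unfold cu
  rw [← map_inv Circle.toUnits]
  rfl

theorem map_rel (χ : Q →* Circle) (h : P * S = 1 + X) :
    PowerSeries.map (hat χ) P * PowerSeries.map (hat χ) S = 1 + X := by
  rw [← map_mul, h, map_add, map_one, PowerSeries.map_X]

theorem map_entries (χ : Q →* Circle) (i j : Fin 2) :
    PowerSeries.map (hat χ) ((fw P S X h (cθ ϑ) ω).1 i j) =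
      (fw (PowerSeries.map (hat χ) P) (PowerSeries.map (hat χ) S) X (map_rel χ h)
        (cθ (cu χ)) ω).1 i j := by
  have hX : PowerSeries.map (hat χ) (X : PowerSeries (MonoidAlgebra ℤ Q)) = X :=
    PowerSeries.map_X _
  have h' : PowerSeries.map (hat χ) P * PowerSeries.map (hat χ) S =
      1 + PowerSeries.map (hat χ) (X : PowerSeries (MonoidAlgebra ℤ Q)) := by
    rw [hX]; exact map_rel χ h
  rw [fw_map_apply (PowerSeries.map (hat χ)) P S X h (cθ ϑ) ω h' i j]
  have e : fw (PowerSeries.map (hat χ) P) (PowerSeries.map (hat χ) S)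
      (PowerSeries.map (hat χ) (X : PowerSeries (MonoidAlgebra ℤ Q))) h'
      (fun i => Units.map (PowerSeries.map (hat χ)).toMonoidHom (cθ ϑ i)) ω =
      fw (PowerSeries.map (hat χ) P) (PowerSeries.map (hat χ) S) X (map_rel χ h)
        (cθ (cu χ)) ω := by
    apply fw_congr _ _ _ rfl rfl hX
    funext g
    apply Units.ext
    change PowerSeries.map (hat χ) (PowerSeries.C (MonoidAlgebra.of ℤ Q g)) =
      PowerSeries.C (cu χ g : ℂ)
    rw [PowerSeries.map_C, hat_of]
    rfl
  exact congrArg (fun Y : Matrix.SpecialLinearGroup (Fin 2) (PowerSeries ℂ) => Y.1 i j) e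

include hP in
theorem map_const (χ : Q →* Circle) : constantCoeff (PowerSeries.map (hat χ) P) = 1 := by
  rw [← PowerSeries.coeff_zero_eq_constantCoeff_apply, PowerSeries.coeff_map,
    PowerSeries.coeff_zero_eq_constantCoeff_apply, hP, map_one]

include hω hP h00 in
/-- A uniform bound for the order of the upper right entry. -/
theorem uniform : ∃ N : ℕ, ∀ χ : Q →* Circle, ∃ j < N,
    hat χ (coeff j ((fw P S X h (cθ ϑ) ω).1 0 1)) ≠ 0 := by
  by_contra hcon
  push Not at hcon
  let a : ℕ → MonoidAlgebra ℤ Q := fun j => coeff j ((fw P S X h (cθ ϑ) ω).1 0 1)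
  let E : MonoidAlgebra ℤ Q → (Q → Circle) → ℂ := fun r x =>
    r.coeff.sum fun g n => (n : ℂ) * ((x g : Circle) : ℂ)
  have hE : ∀ r, Continuous (E r) := by
    intro r
    apply continuous_finsetSum
    intro g _
    exact continuous_const.mul (continuous_subtype_val.comp (continuous_apply g))
  let t : ℕ → Set (Q → Circle) := fun N =>
    {x | (∀ g k, x (g * k) = x g * x k) ∧ ∀ j < N, E (a j) x = 0}
  have hcl : ∀ N, IsClosed (t N) := by
    intro N
    apply IsClosed.inter
    · have : {x : Q → Circle | ∀ g k, x (g * k) = x g * x k} =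
          ⋂ g, ⋂ k, {x : Q → Circle | x (g * k) = x g * x k} := by
        ext x; simp
      change IsClosed {x : Q → Circle | ∀ g k, x (g * k) = x g * x k}
      rw [this]
      apply isClosed_iInter
      intro g
      apply isClosed_iInter
      intro k
      exact isClosed_eq (continuous_apply _) ((continuous_apply g).mul (continuous_apply k))
    · have : {x : Q → Circle | ∀ j < N, E (a j) x = 0} =
          ⋂ j, ⋂ (_ : j < N), {x : Q → Circle | E (a j) x = 0} := by
        ext x; simp
      change IsClosed {x : Q → Circle | ∀ j < N, E (a j) x = 0}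
      rw [this]
      apply isClosed_iInter
      intro j
      apply isClosed_iInter
      intro _
      exact isClosed_eq (hE _) continuous_const
  have hne : (⋂ i, t i).Nonempty := by
    apply IsCompact.nonempty_iInter_of_sequence_nonempty_isCompact_isClosed t
    · intro i x hx
      exact ⟨hx.1, fun j hj => hx.2 j (Nat.lt_succ_of_lt hj)⟩
    · intro N
      obtain ⟨χ, hχ⟩ := hcon N
      refine ⟨χ, fun g k => map_mul χ g k, fun j hj => ?_⟩
      have := hχ j hj
      rw [hat_apply] at this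
      exact this
    · exact (hcl 0).isCompact
    · exact hcl
  obtain ⟨x, hx⟩ := hne
  rw [Set.mem_iInter] at hx
  let χ : Q →* Circle := MonoidHom.mk' x (hx 0).1
  apply upper_right_ne (cu χ) (cu_conj χ) ω hω (map_rel χ h) (map_const hP χ)
  · rw [← map_entries ω h χ 0 0, h00, map_one]
  · rw [← map_entries ω h χ 0 1]
    ext j
    rw [PowerSeries.coeff_map, map_zero, hat_apply]
    exact (hx (j + 1)).2 j (Nat.lt_succ_self j)

include hω hP h00 in
/-- The independence theorem. -/
theorem indep : ∃ N : ℕ, ∀ r : MonoidAlgebra ℤ Q,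
    PowerSeries.C r * (fw P S X h (cθ ϑ) ω).1 0 1 ∈
      Ideal.span {(fw P S X h (cθ ϑ) ω).1 1 0, X * (fw P S X h (cθ ϑ) ω).1 0 1,
        (X : PowerSeries (MonoidAlgebra ℤ Q)) ^ N} → r = 0 := by
  obtain ⟨N, hN⟩ := uniform ω hω h hP h00
  refine ⟨N, fun r hr => hat_sep r fun χ => ?_⟩
  obtain ⟨j, hj, hj0⟩ := hN χ
  rw [Ideal.mem_span_insert] at hr
  obtain ⟨α, z, hz, e⟩ := hr
  rw [Ideal.mem_span_insert] at hz
  obtain ⟨β, z', hz', e'⟩ := hz
  rw [Ideal.mem_span_singleton] at hz'
  obtain ⟨γ, rfl⟩ := hz'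
  have hh00 : (fw (PowerSeries.map (hat χ) P) (PowerSeries.map (hat χ) S) X (map_rel χ h)
        (cθ (cu χ)) ω).1 0 0 = 1 := by
    rw [← map_entries ω h χ 0 0, h00, map_one]
  obtain ⟨v, -, hv⟩ := lower_left (cu χ) (cu_conj χ) ω hω (map_rel χ h) (map_const hP χ) hh00
  rw [← map_entries ω h χ 0 1, ← map_entries ω h χ 1 0] at hv
  have e2 := congrArg (PowerSeries.map (hat χ)) e
  rw [e'] at e2
  simp only [map_mul, map_add, map_pow, PowerSeries.map_X, PowerSeries.map_C] at e2
  rw [hv] at e2
  set b := PowerSeries.map (hat χ) ((fw P S X h (cθ ϑ) ω).1 0 1) with hb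
  -- the order
  have hbj : coeff j b ≠ 0 := by
    rw [hb, PowerSeries.coeff_map]; exact hj0
  have hex : ∃ k, coeff k b ≠ 0 := ⟨j, hbj⟩
  classical
  let k := Nat.find hex
  have hk : coeff k b ≠ 0 := Nat.find_spec hex
  have hkj : k ≤ j := Nat.find_min' hex hbj
  have hlt : ∀ i < k, coeff i b = 0 := fun i hi => by
    by_contra hne
    exact Nat.find_min hex hi hne
  have d1 : (X : PowerSeries ℂ) ^ k ∣ b := PowerSeries.X_pow_dvd_iff.2 hlt
  have d2 : (X : PowerSeries ℂ) ^ k ∣ kap b := by
    rw [PowerSeries.X_pow_dvd_iff]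
    intro i hi
    rw [PowerSeries.coeff_map, hlt i hi, map_zero]
  have d3 : (X : PowerSeries ℂ) ^ (k + 1) ∣ PowerSeries.C (hat χ r) * b := by
    rw [e2]
    apply dvd_add
    · apply dvd_mul_of_dvd_right
      apply dvd_mul_of_dvd_left
      rw [pow_succ']
      exact mul_dvd_mul_left X d2
    · apply dvd_add
      · apply dvd_mul_of_dvd_right
        rw [pow_succ']
        exact mul_dvd_mul_left X d1
      · apply dvd_mul_of_dvd_left
        exact pow_dvd_pow X (by omega)
  have h1 := (PowerSeries.X_pow_dvd_iff.1 d3) k (Nat.lt_succ_self k)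
  rw [PowerSeries.coeff_C_mul] at h1
  exact (mul_eq_zero.1 h1).resolve_right hk

end

end Q28.UM
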