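import Mathlib
import Pool.Agent.Q28.UM.Indep

/-!
The nilpotent group carrying the universal solution.
-/

set_option autoImplicit false

namespace Q28.UM

open PowerSeries

universe u v w

section grp
variable {A : Type u} [CommRing A] (t : A)

abbrev SL2 (A : Type u) [CommRing A] := Matrix.SpecialLinearGroup (Fin 2) A
abbrev M2 (A : Type u) := Matrix (Fin 2) (Fin 2) A

/-- Matrices upper unitriangular modulo `t`. -/
def VV : Subgroup (SL2 A) where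
  carrier := {Y | t ∣ Y.1 1 0 ∧ t ∣ Y.1 0 0 - 1 ∧ t ∣ Y.1 1 1 - 1}
  one_mem' := by simp
  mul_mem' := by
    rintro Y Z ⟨⟨a, ha⟩, ⟨b, hb⟩, ⟨c, hc⟩⟩ ⟨⟨a', ha'⟩, ⟨b', hb'⟩, ⟨c', hc'⟩⟩
    refine ⟨?_, ?_, ?_⟩
    · rw [mul_entries, ha, ha']
      exact ⟨a * Z.1 0 0 + Y.1 1 1 * a', by ring⟩
    · rw [mul_entries, ha']
      exact ⟨b * Z.1 0 0 + b' + Y.1 0 1 * a', by linear_combination hb * Z.1 0 0 + hb'⟩
    · rw [mul_entries, ha]
      exact ⟨a * Z.1 0 1 + c * Z.1 1 1 + c', by linear_combination hc * Z.1 1 1 + hc'⟩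
  inv_mem' := by
    rintro Y ⟨h1, h2, h3⟩
    obtain ⟨c1, c2, c3, c4⟩ := inv_entries Y
    refine ⟨?_, ?_, ?_⟩
    · rw [c3]; exact (dvd_neg).2 h1
    · rw [c1]; exact h3
    · rw [c4]; exact h2

/-- Congruence subgroups. -/
def KK (k : ℕ) : Subgroup (SL2 A) where
  carrier := {Y | ∃ Y' : M2 A, (Y : M2 A) = 1 + t ^ k • Y'}
  one_mem' := ⟨0, by simp⟩
  mul_mem' := by
    rintro Y Z ⟨Y', hY⟩ ⟨Z', hZ⟩
    refine ⟨Y' + Z' + t ^ k • (Y' * Z'), ?_⟩
    rw [Matrix.SpecialLinearGroup.coe_mul, hY, hZ]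
    simp only [add_mul, mul_add, one_mul, mul_one, smul_mul_assoc, mul_smul_comm, smul_add]
    abel
  inv_mem' := by
    rintro Y ⟨Y', hY⟩
    refine ⟨-(Y' * (Y⁻¹ : SL2 A)), ?_⟩
    have h1 : (Y : M2 A) * ((Y⁻¹ : SL2 A) : M2 A) = 1 := by
      rw [← Matrix.SpecialLinearGroup.coe_mul, mul_inv_cancel, Matrix.SpecialLinearGroup.coe_one]
    rw [hY, add_mul, one_mul, smul_mul_assoc] at h1
    rw [smul_neg, ← sub_eq_add_neg, eq_sub_iff_add_eq]
    exact h1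

theorem comm_of_cong (Y Z : SL2 A) (d : A) (W : M2 A)
    (h : (Y : M2 A) * (Z : M2 A) = (Z : M2 A) * (Y : M2 A) + d • W) :
    ∃ W' : M2 A, ((Y * Z * Y⁻¹ * Z⁻¹ : SL2 A) : M2 A) = 1 + d • W' := by
  refine ⟨W * ((Y⁻¹ * Z⁻¹ : SL2 A) : M2 A), ?_⟩
  have h1 : ((Z * Y : SL2 A) : M2 A) * ((Y⁻¹ * Z⁻¹ : SL2 A) : M2 A) = 1 := by
    rw [← Matrix.SpecialLinearGroup.coe_mul]
    have : Z * Y * (Y⁻¹ * Z⁻¹) = 1 := by group
    rw [this, Matrix.SpecialLinearGroup.coe_one]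
  have h2 : Y * Z * Y⁻¹ * Z⁻¹ = (Y * Z) * (Y⁻¹ * Z⁻¹) := by group
  rw [h2, Matrix.SpecialLinearGroup.coe_mul (Y * Z), Matrix.SpecialLinearGroup.coe_mul Y Z, h,
    add_mul, ← Matrix.SpecialLinearGroup.coe_mul Z Y, h1, smul_mul_assoc]

theorem comm_KK (k : ℕ) (Y Z : SL2 A) (hY : Y ∈ KK t k) (hZ : Z ∈ KK t k) :
    Y * Z * Y⁻¹ * Z⁻¹ ∈ KK t (2 * k) := by
  obtain ⟨Y', hY⟩ := hY
  obtain ⟨Z', hZ⟩ := hZ
  apply comm_of_cong Y Z (t ^ (2 * k)) (Y' * Z' - Z' * Y')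
  rw [hY, hZ, two_mul, pow_add]
  simp only [add_mul, mul_add, one_mul, mul_one, smul_mul_assoc, mul_smul_comm, smul_sub,
    mul_smul, smul_add]
  abel

theorem comm_VV (Y Z : SL2 A) (hY : Y ∈ VV t) (hZ : Z ∈ VV t) :
    Y * Z * Y⁻¹ * Z⁻¹ ∈ KK t 1 := by
  obtain ⟨⟨a, ha⟩, ⟨b, hb⟩, ⟨c, hc⟩⟩ := hY
  obtain ⟨⟨a', ha'⟩, ⟨b', hb'⟩, ⟨c', hc'⟩⟩ := hZ
  have h1 : ∀ i j, ∃ w, (Y.1 * Z.1) i j = (Z.1 * Y.1) i j + t * w := by
    intro i j
    fin_cases i <;> fin_cases j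
    · refine ⟨Y.1 0 1 * a' - Z.1 0 1 * a, ?_⟩
      simp only [Fin.zero_eta, Matrix.mul_apply, Fin.sum_univ_two]
      rw [ha, ha']; ring
    · refine ⟨b * Z.1 0 1 + Y.1 0 1 * c' - (b' * Y.1 0 1 + Z.1 0 1 * c), ?_⟩
      simp only [Fin.zero_eta, Fin.mk_one, Matrix.mul_apply, Fin.sum_univ_two]
      linear_combination hb * Z.1 0 1 + Y.1 0 1 * hc' - hb' * Y.1 0 1 - Z.1 0 1 * hc
    · refine ⟨a * Z.1 0 0 + Y.1 1 1 * a' - (a' * Y.1 0 0 + Z.1 1 1 * a), ?_⟩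
      simp only [Fin.zero_eta, Fin.mk_one, Matrix.mul_apply, Fin.sum_univ_two]
      rw [ha, ha']; ring
    · refine ⟨a * Z.1 0 1 - a' * Y.1 0 1, ?_⟩
      simp only [Fin.mk_one, Matrix.mul_apply, Fin.sum_univ_two]
      rw [ha, ha']; ring
  choose w hw using h1
  apply comm_of_cong Y Z (t ^ 1) (Matrix.of w)
  ext i j
  rw [pow_one, Matrix.add_apply, Matrix.smul_apply, Matrix.of_apply, smul_eq_mul]
  exact hw i j

/-- The group `VV` is solvable if `t` is nilpotent. -/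
theorem VV_solv (N : ℕ) (hN : t ^ N = 0) : derivedSeries (VV t) (N + 1) = ⊥ := by
  have key : ∀ k, (derivedSeries (VV t) (k + 1)).map (VV t).subtype ≤ KK t (k + 1) := by
    intro k
    induction k with
    | zero =>
      rw [Subgroup.map_le_iff_le_comap, zero_add, derivedSeries_succ, Subgroup.commutator_le]
      intro a _ b _
      exact comm_VV t a.1 b.1 a.2 b.2
    | succ k ih =>
      rw [derivedSeries_succ, Subgroup.map_commutator, Subgroup.commutator_le]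
      intro a ha b hb
      have h1 := comm_KK t (k + 1) a b (ih ha) (ih hb)
      obtain ⟨W, hW⟩ := h1
      refine ⟨t ^ k • W, ?_⟩
      rw [smul_smul, ← pow_add]
      have : k + 1 + 1 + k = 2 * (k + 1) := by ring
      rw [this]
      exact hW
  rw [eq_bot_iff]
  intro a ha
  obtain ⟨W, hW⟩ := key N ⟨a, ha, rfl⟩
  rw [pow_succ, hN, zero_mul, zero_smul, add_zero] at hW
  rw [Subgroup.mem_bot]
  apply Subtype.ext
  apply Subtype.ext
  exact hW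

/-- The annihilator of `t`. -/
def SA : AddSubgroup A where
  carrier := {σ | t * σ = 0}
  zero_mem' := mul_zero t
  add_mem' := by
    intro a b ha hb
    change t * a = 0 at ha
    change t * b = 0 at hb
    change t * (a + b) = 0
    rw [mul_add, ha, hb, add_zero]
  neg_mem' := by
    intro a ha
    change t * a = 0 at ha
    change t * (-a) = 0
    rw [mul_neg, ha, neg_zero]

/-- Unipotent matrices. -/
def up (σ : A) : SL2 A := ⟨!![1, σ; 0, 1], by rw [Matrix.det_fin_two_of]; ring⟩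

theorem up_mem (σ : A) : up σ ∈ VV t := by
  refine ⟨?_, ?_, ?_⟩ <;> simp [up]

/-- The central homomorphism. -/
def kapV : Multiplicative (SA t) →* VV t where
  toFun σ := ⟨up (Multiplicative.toAdd σ).1, up_mem t _⟩
  map_one' := by
    apply Subtype.ext
    apply Subtype.ext
    ext i j
    fin_cases i <;> fin_cases j <;> rfl
  map_mul' a b := by
    apply Subtype.ext
    apply Subtype.ext
    change (!![1, ((Multiplicative.toAdd a).1 + (Multiplicative.toAdd b).1); 0, 1] : M2 A) =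
      !![1, (Multiplicative.toAdd a).1; 0, 1] * !![1, (Multiplicative.toAdd b).1; 0, 1]
    rw [Matrix.mul_fin_two]
    simp only [one_mul, mul_one, mul_zero, zero_mul, add_zero, zero_add]
    rw [add_comm]

theorem kapV_inj : Function.Injective (kapV t) := by
  intro a b hab
  have h1 : (kapV t a).1.1 0 1 = (kapV t b).1.1 0 1 := by rw [hab]
  exact Subtype.ext h1

theorem kapV_central (σ : Multiplicative (SA t)) (v : VV t) :
    kapV t σ * v = v * kapV t σ := by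
  obtain ⟨Y, ⟨a, ha⟩, ⟨b, hb⟩, ⟨c, hc⟩⟩ := v
  obtain ⟨s, hs⟩ := σ
  change t * s = 0 at hs
  apply Subtype.ext
  apply Subtype.ext
  change (!![1, s; 0, 1] : M2 A) * Y.1 = Y.1 * !![1, s; 0, 1]
  have hY : Y.1 = !![Y.1 0 0, Y.1 0 1; Y.1 1 0, Y.1 1 1] := Matrix.eta_fin_two Y.1
  rw [hY, Matrix.mul_fin_two, Matrix.mul_fin_two]
  ext i j
  fin_cases i <;> fin_cases j
  · change 1 * Y.1 0 0 + s * Y.1 1 0 = Y.1 0 0 * 1 + Y.1 0 1 * 0
    rw [ha]; linear_combination a * hs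
  · change 1 * Y.1 0 1 + s * Y.1 1 1 = Y.1 0 0 * s + Y.1 0 1 * 1
    linear_combination s * hc - s * hb + (c - b) * hs
  · change 0 * Y.1 0 0 + 1 * Y.1 1 0 = Y.1 1 0 * 1 + Y.1 1 1 * 0
    ring
  · change 0 * Y.1 0 1 + 1 * Y.1 1 1 = Y.1 1 0 * s + Y.1 1 1 * 1
    rw [ha]; linear_combination (-a) * hs

end grp

end Q28.UM
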