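import Mathlib
import Pool.Agent.Q28.UM.Grp1

/-!
The universal solution.
-/

set_option autoImplicit false

namespace Q28.UM

open PowerSeries

universe u v w

/-- The universal solution of a unimodular equation over an abelian group. -/
theorem step1 {Q : Type u} [CommGroup Q] (ω : FreeGroup Q)
    (hω : es ω = Multiplicative.ofAdd (1 : ℤ)) :
    ∃ (V : Type u) (_ : Group V) (n : ℕ) (S : Type u) (_ : AddCommGroup S)
      (κ : Multiplicative S →* V) (F : Q → V) (s : MonoidAlgebra ℤ Q →+ S),
      derivedSeries V n = ⊥ ∧ Function.Injective κ ∧ (∀ σ v, κ σ * v = v * κ σ) ∧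
      Function.Injective s ∧
      ∀ g, FreeGroup.lift (fun g' => F (g * g')) ω =
        κ (Multiplicative.ofAdd (s (MonoidAlgebra.of ℤ Q g))) := by
  obtain ⟨P, S, h, hP, h00⟩ := exists_sol (O := MonoidAlgebra ℤ Q) ϑ ω hω
  obtain ⟨N, hN⟩ := indep ω hω h hP h00
  have hS : constantCoeff S = 1 := by
    have := congrArg (constantCoeff (R := MonoidAlgebra ℤ Q)) h
    rw [map_mul, hP, one_mul, map_add, map_one, constantCoeff_X, add_zero] at this
    exact this
  set f01 := (fw P S X h (cθ ϑ) ω).1 0 1 with hf01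
  set f10 := (fw P S X h (cθ ϑ) ω).1 1 0 with hf10
  let I : Ideal (PowerSeries (MonoidAlgebra ℤ Q)) := Ideal.span {f10, X * f01, X ^ N}
  let A : Type u := PowerSeries (MonoidAlgebra ℤ Q) ⧸ I
  let mk : PowerSeries (MonoidAlgebra ℤ Q) →+* A := Ideal.Quotient.mk I
  have m10 : mk f10 = 0 := Ideal.Quotient.eq_zero_iff_mem.2 (Ideal.subset_span (by simp))
  have m01 : mk X * mk f01 = 0 := by
    rw [← map_mul]
    exact Ideal.Quotient.eq_zero_iff_mem.2 (Ideal.subset_span (by simp))
  have mN : mk X ^ N = 0 := by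
    rw [← map_pow]
    exact Ideal.Quotient.eq_zero_iff_mem.2 (Ideal.subset_span (by simp))
  let t : A := mk X
  have h' : mk P * mk S = 1 + t := by
    change mk P * mk S = 1 + mk X
    rw [← map_mul, h, map_add, map_one]
  let θ : Q → Aˣ := fun g => Units.map mk.toMonoidHom (cθ ϑ g)
  have θmul : ∀ g k, θ (g * k) = θ g * θ k := by
    intro g k
    change Units.map mk.toMonoidHom (Units.map (PowerSeries.C (R := MonoidAlgebra ℤ Q)).toMonoidHom
      (ϑ (g * k))) = _
    rw [ϑ_mul, map_mul, map_mul]
    rfl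
  have ent : ∀ i j, (fw (mk P) (mk S) t h' θ ω).1 i j = mk ((fw P S X h (cθ ϑ) ω).1 i j) := by
    intro i j
    exact (fw_map_apply mk P S X h (cθ ϑ) ω h' i j).symm
  have e00 : (fw (mk P) (mk S) t h' θ ω).1 0 0 = 1 := by rw [ent, h00, map_one]
  have e10 : (fw (mk P) (mk S) t h' θ ω).1 1 0 = 0 := by rw [ent]; exact m10
  have e01 : (fw (mk P) (mk S) t h' θ ω).1 0 1 = mk f01 := by rw [ent]
  have e11 : (fw (mk P) (mk S) t h' θ ω).1 1 1 = 1 := by
    have := det_entries (fw (mk P) (mk S) t h' θ ω)
    rw [e00, e10, mul_zero, one_mul, sub_zero] at this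
    exact this
  -- the elements
  have memV : ∀ a : Aˣ, Xm (mk P) (mk S) t h' a ∈ VV t := by
    intro a
    have d : ∀ f : PowerSeries (MonoidAlgebra ℤ Q), constantCoeff f = 1 → t ∣ mk f - 1 := by
      intro f hf
      have : (X : PowerSeries (MonoidAlgebra ℤ Q)) ∣ f - 1 := by
        rw [PowerSeries.X_dvd_iff, map_sub, map_one, hf, sub_self]
      obtain ⟨c, hc⟩ := this
      refine ⟨mk c, ?_⟩
      change mk f - 1 = mk X * mk c
      rw [← map_mul, ← hc, map_sub, map_one]
    exact ⟨⟨_, rfl⟩, d P hP, d S hS⟩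
  let F : Q → VV t := fun g => ⟨Xm (mk P) (mk S) t h' (θ g), memV _⟩
  let s : MonoidAlgebra ℤ Q →+ SA t :=
    { toFun := fun r => ⟨mk (PowerSeries.C r * f01), by
        change mk X * mk (PowerSeries.C r * f01) = 0
        rw [map_mul, mul_left_comm, m01, mul_zero]⟩
      map_zero' := by
        apply Subtype.ext
        change mk (PowerSeries.C 0 * f01) = 0
        rw [map_zero, zero_mul, map_zero]
      map_add' := by
        intro a b
        apply Subtype.ext
        change mk (PowerSeries.C (a + b) * f01) =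
          mk (PowerSeries.C a * f01) + mk (PowerSeries.C b * f01)
        rw [map_add, add_mul, map_add] }
  refine ⟨VV t, inferInstance, N + 1, SA t, inferInstance, kapV t, F, s, VV_solv t N mN,
    kapV_inj t, kapV_central t, ?_, ?_⟩
  · rw [injective_iff_map_eq_zero]
    intro r hr
    apply hN
    have h1 : mk (PowerSeries.C r * f01) = 0 := congrArg Subtype.val hr
    exact Ideal.Quotient.eq_zero_iff_mem.1 h1
  · intro g
    have h1 : (VV t).subtype (FreeGroup.lift (fun g' => F (g * g')) ω) =
        fw (mk P) (mk S) t h' (fun i => θ g * θ i) ω := by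
      unfold fw
      have : (VV t).subtype.comp (FreeGroup.lift (fun g' => F (g * g'))) =
          FreeGroup.lift (fun i => Xm (mk P) (mk S) t h' (θ g * θ i)) := by
        ext1 g'
        simp only [MonoidHom.comp_apply, FreeGroup.lift_apply_of]
        change Xm (mk P) (mk S) t h' (θ (g * g')) = _
        rw [θmul]
      exact DFunLike.congr_fun this ω
    obtain ⟨s00, s01, s10, s11⟩ := fw_scale (mk P) (mk S) t h' θ (θ g) ω
    rw [e00] at s00
    rw [e01] at s01
    rw [e10] at s10
    rw [e11] at s11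
    have s10' : (fw (mk P) (mk S) t h' (fun i => θ g * θ i) ω).1 1 0 = 0 := by
      have hu : IsUnit ((θ g : Aˣ) : A) := (θ g).isUnit
      exact (hu.mul_right_eq_zero).1 s10
    apply Subtype.ext
    apply Subtype.ext
    change ((VV t).subtype (FreeGroup.lift (fun g' => F (g * g')) ω)).1 =
      !![1, mk (PowerSeries.C (MonoidAlgebra.of ℤ Q g) * f01); 0, 1]
    rw [h1]
    ext i j
    fin_cases i <;> fin_cases j
    · exact s00
    · change (fw (mk P) (mk S) t h' (fun i => θ g * θ i) ω).1 0 1 = mk (_ * f01)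
      rw [s01, map_mul]
      rfl
    · exact s10'
    · exact s11

end Q28.UM
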