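import Mathlib
import Pool.Agent.Q28.UM.Grp2

/-!
Prescribed central corners.
-/

set_option autoImplicit false

namespace Q28.UM

universe u v w

/-- The target of characters. -/
abbrev TT := AddCircle (1 : ℚ)

theorem extend_char {M : Type u} {N : Type v} [AddCommGroup M] [AddCommGroup N] (f : M →ₗ[ℤ] N)
    (hf : Function.Injective f) (c : M →+ TT) : ∃ d : N →+ TT, ∀ x, d (f x) = c x := by
  obtain ⟨d, hd⟩ := CharacterModule.dual_surjective_of_injective f hf (c : CharacterModule M)
  refine ⟨d, fun x => ?_⟩
  have := congrArg (fun (g : CharacterModule M) => g x) hd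
  exact this

/-- Functions into a group of derived length `n`. -/
theorem ds_fun {I U : Type*} [Group U] (n : ℕ) (hn : derivedSeries U n = ⊥) :
    derivedSeries (I → U) n = ⊥ := by
  rw [eq_bot_iff]
  intro F hF
  rw [Subgroup.mem_bot]
  funext i
  have h1 : Pi.evalMonoidHom (fun _ : I => U) i F ∈ derivedSeries U n :=
    map_derivedSeries_le_derivedSeries (Pi.evalMonoidHom (fun _ : I => U) i) n ⟨F, hF, rfl⟩
  rw [hn, Subgroup.mem_bot] at h1
  exact h1

/-- A homomorphism with commutative kernel raises the derived length by at most one. -/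
theorem ds_ker {G H : Type*} [Group G] [Group H] (f : G →* H) (n : ℕ)
    (hn : derivedSeries H n = ⊥) (hk : ∀ a b : G, f a = 1 → f b = 1 → a * b = b * a) :
    derivedSeries G (n + 1) = ⊥ := by
  have h0 : derivedSeries G n ≤ f.ker := by
    intro g hg
    have := map_derivedSeries_le_derivedSeries f n ⟨g, hg, rfl⟩
    rw [hn, Subgroup.mem_bot] at this
    exact this
  rw [eq_bot_iff, derivedSeries_succ, Subgroup.commutator_le]
  intro a ha b hb
  rw [Subgroup.mem_bot, commutatorElement_eq_one_iff_mul_comm]
  exact hk a b (h0 ha) (h0 hb)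

/-- Quotients. -/
theorem ds_quot {G : Type*} [Group G] (N : Subgroup G) [N.Normal] (n : ℕ)
    (hn : derivedSeries G n = ⊥) : derivedSeries (G ⧸ N) n = ⊥ := by
  rw [← map_derivedSeries_eq (QuotientGroup.mk'_surjective N) n, hn, Subgroup.map_bot]

/-- The solution with prescribed central values. -/
theorem step2 {Q : Type u} [CommGroup Q] (ω : FreeGroup Q)
    (hω : es ω = Multiplicative.ofAdd (1 : ℤ)) :
    ∃ n : ℕ, ∀ (J : Type u) (C : J → Q → TT), ∃ (U : Type u) (_ : Group U)
      (c : Multiplicative TT →* U) (F : J → Q → U),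
      derivedSeries U n = ⊥ ∧ Function.Injective c ∧ (∀ t v, c t * v = v * c t) ∧
      ∀ j g, FreeGroup.lift (fun g' => F j (g * g')) ω = c (Multiplicative.ofAdd (C j g)) := by
  classical
  obtain ⟨V, _, n, S, _, κ, F, s, hn, κinj, κcen, sinj, hF⟩ := step1 ω hω
  refine ⟨n + 1, fun J C => ?_⟩
  -- the character
  let f : (J →₀ MonoidAlgebra ℤ Q) →ₗ[ℤ] (J → S) :=
    AddMonoidHom.toIntLinearMap
      { toFun := fun r j => s (r j)
        map_zero' := by funext j; simp
        map_add' := by intro a b; funext j; simp }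
  have fap : ∀ r j, f r j = s (r j) := fun r j => rfl
  have finj : Function.Injective f := by
    intro a b hab
    apply Finsupp.ext
    intro j
    apply sinj
    rw [← fap, ← fap, hab]
  let cc : J → MonoidAlgebra ℤ Q →+ TT := fun j =>
    { toFun := fun r => Finsupp.liftAddHom (fun q => (zmultiplesHom TT (C j q))) r.coeff
      map_zero' := by simp
      map_add' := by intro a b; simp }
  have ccof : ∀ j g, cc j (MonoidAlgebra.of ℤ Q g) = C j g := by
    intro j g
    change Finsupp.liftAddHom (fun q => (zmultiplesHom TT (C j q)))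
      (MonoidAlgebra.of ℤ Q g).coeff = _
    simp
  obtain ⟨χ, hχ⟩ := extend_char f finj (Finsupp.liftAddHom cc)
  have hχ' : ∀ j g, χ (Pi.single j (s (MonoidAlgebra.of ℤ Q g))) = C j g := by
    intro j g
    have h1 : (Pi.single j (s (MonoidAlgebra.of ℤ Q g)) : J → S) =
        f (Finsupp.single j (MonoidAlgebra.of ℤ Q g)) := by
      funext j'
      rw [fap]
      by_cases hj : j' = j
      · subst hj; simp
      · rw [Pi.single_eq_of_ne hj, Finsupp.single_eq_of_ne hj, map_zero]
    rw [h1, hχ, Finsupp.liftAddHom_apply_single, ccof]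
  -- the group
  let W : Type u := (J → V) × Multiplicative TT
  let ν : Multiplicative (J → S) →* W :=
    { toFun := fun z => (fun j => κ (Multiplicative.ofAdd ((Multiplicative.toAdd z) j)),
        Multiplicative.ofAdd (-(χ (Multiplicative.toAdd z))))
      map_one' := by
        refine Prod.ext (funext fun j => ?_) ?_
        · change κ (Multiplicative.ofAdd (0 : S)) = 1
          rw [ofAdd_zero, map_one]
        · change Multiplicative.ofAdd (-(χ 0)) = 1
          rw [map_zero, neg_zero, ofAdd_zero]
      map_mul' := by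
        intro a b
        refine Prod.ext (funext fun j => ?_) ?_
        · change κ (Multiplicative.ofAdd ((Multiplicative.toAdd a) j + (Multiplicative.toAdd b) j))
            = κ _ * κ _
          rw [ofAdd_add, map_mul]
        · change Multiplicative.ofAdd (-(χ ((Multiplicative.toAdd a) + (Multiplicative.toAdd b))))
            = Multiplicative.ofAdd (-(χ _)) * Multiplicative.ofAdd (-(χ _))
          rw [map_add, neg_add, ofAdd_add] }
  have νcen : ∀ z (v : W), ν z * v = v * ν z := by
    intro z v
    refine Prod.ext (funext fun j => ?_) ?_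
    · exact κcen _ _
    · exact mul_comm _ _
  let N : Subgroup W := ν.range
  have : N.Normal := by
    constructor
    rintro _ ⟨z, rfl⟩ v
    rw [← νcen, mul_inv_cancel_right]
    exact ⟨z, rfl⟩
  let c : Multiplicative TT →* W ⧸ N := (QuotientGroup.mk' N).comp (MonoidHom.inr (J → V) _)
  let e : J → V →* W ⧸ N := fun j =>
    (QuotientGroup.mk' N).comp ((MonoidHom.inl (J → V) _).comp (MonoidHom.mulSingle (fun _ => V) j))
  refine ⟨W ⧸ N, inferInstance, c, fun j g => e j (F g), ?_, ?_, ?_, ?_⟩
  · apply ds_quot
    apply ds_ker (MonoidHom.fst (J → V) (Multiplicative TT)) n (ds_fun n hn)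
    rintro ⟨a, a'⟩ ⟨b, b'⟩ ha hb
    change a = 1 at ha
    change b = 1 at hb
    subst ha hb
    exact Prod.ext rfl (mul_comm _ _)
  · rw [injective_iff_map_eq_one]
    intro t ht
    have h1 : ((1, t) : W) ∈ N := (QuotientGroup.eq_one_iff _).1 ht
    obtain ⟨z, hz⟩ := h1
    have h2 : (Multiplicative.toAdd z : J → S) = 0 := by
      funext j
      have h3 : κ (Multiplicative.ofAdd ((Multiplicative.toAdd z) j)) = 1 :=
        congrFun (congrArg Prod.fst hz) j
      rw [← map_one κ] at h3
      exact κinj h3
    have h4 : Multiplicative.ofAdd (-(χ (Multiplicative.toAdd z))) = t := congrArg Prod.snd hz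
    rw [← h4, h2, map_zero, neg_zero, ofAdd_zero]
  · intro t v
    obtain ⟨v, rfl⟩ := QuotientGroup.mk'_surjective N v
    change QuotientGroup.mk' N _ * _ = _ * QuotientGroup.mk' N _
    rw [← map_mul, ← map_mul]
    congr 1
    exact Prod.ext ((one_mul _).trans (mul_one _).symm) (mul_comm _ _)
  · intro j g
    have h1 : FreeGroup.lift (fun g' => e j (F (g * g'))) ω =
        e j (FreeGroup.lift (fun g' => F (g * g')) ω) := by
      have : FreeGroup.lift (fun g' => e j (F (g * g'))) =
          (e j).comp (FreeGroup.lift (fun g' => F (g * g'))) := by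
        ext1 g'
        simp
      rw [this]
      rfl
    rw [h1, hF]
    change QuotientGroup.mk' N _ = QuotientGroup.mk' N _
    rw [QuotientGroup.mk'_eq_mk']
    refine ⟨ν (Multiplicative.ofAdd (-(Pi.single j (s (MonoidAlgebra.of ℤ Q g)) : J → S))),
      ⟨_, rfl⟩, ?_⟩
    refine Prod.ext (funext fun j' => ?_) ?_
    · change (Pi.mulSingle j (κ (Multiplicative.ofAdd (s (MonoidAlgebra.of ℤ Q g)))) : J → V) j' *
        κ (Multiplicative.ofAdd ((-(Pi.single j (s (MonoidAlgebra.of ℤ Q g)) : J → S)) j')) = 1
      by_cases hj : j' = j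
      · subst hj
        rw [Pi.mulSingle_eq_same, ← map_mul, Pi.neg_apply, Pi.single_eq_same, ← ofAdd_add,
          add_neg_cancel, ofAdd_zero, map_one]
      · rw [Pi.mulSingle_eq_of_ne hj, Pi.neg_apply, Pi.single_eq_of_ne hj, neg_zero, ofAdd_zero,
          map_one, one_mul]
    · change (1 : Multiplicative TT) * Multiplicative.ofAdd (-(χ (-(Pi.single j _)))) =
        Multiplicative.ofAdd (C j g)
      have h5 : χ (-(Pi.single j (s (MonoidAlgebra.of ℤ Q g)) : J → S)) = -(C j g) := by
        rw [AddMonoidHom.map_neg, hχ']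
      rw [one_mul, h5, neg_neg]

end Q28.UM
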