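import Mathlib
import Pool.Agent.Q28.UM.Grp3

/-!
Reduction of words with commuting coefficients to words in translates.
-/

set_option autoImplicit false

namespace Q28.UM

universe u v w

open Monoid

/-- The exponent sum of a word over a group. -/
def xs (K : Type u) [Group K] : Coprod K (FreeGroup Unit) →* Multiplicative ℤ :=
  Coprod.lift (1 : K →* Multiplicative ℤ) (FreeGroup.lift (fun _ => Multiplicative.ofAdd (1 : ℤ)))

/-- The value of a word. -/
def vl {K : Type u} [Group K] {H : Type v} [Group H] (Ψ : K →* H) (h : H) :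
    Coprod K (FreeGroup Unit) →* H :=
  Coprod.lift Ψ (FreeGroup.lift (fun _ : Unit => h))

/-- Induction on words. -/
theorem word_ind {K : Type u} [Group K] (S : Subgroup (Coprod K (FreeGroup Unit)))
    (h1 : ∀ k, Coprod.inl k ∈ S) (h2 : Coprod.inr (FreeGroup.of ()) ∈ S) (w) : w ∈ S := by
  induction w using Coprod.induction_on with
  | inl k => exact h1 k
  | inr n =>
    induction n using FreeGroup.induction_on with
    | C1 => rw [map_one]; exact S.one_mem
    | of i => exact h2
    | inv_of i h => rw [map_inv]; exact S.inv_mem h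
    | mul x y hx hy => rw [map_mul]; exact S.mul_mem hx hy
  | mul x y hx hy => exact S.mul_mem hx hy

theorem es_map {ι κ : Type*} (f : ι → κ) (ω : FreeGroup ι) : es (FreeGroup.map f ω) = es ω := by
  have : (es (ι := κ)).comp (FreeGroup.map f) = es := by
    ext1 i
    simp [es]
  rw [← this]; rfl

theorem conj_lift {Q H : Type*} [Group Q] [Group H] (F : Q → H) (x : H) (q₀ : Q)
    (h : ∀ q, x * F q * x⁻¹ = F (q₀ * q)) (ω : FreeGroup Q) :
    x * FreeGroup.lift F ω * x⁻¹ = FreeGroup.lift F (FreeGroup.map (q₀ * ·) ω) := by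
  have : (MulAut.conj x).toMonoidHom.comp (FreeGroup.lift F) =
      (FreeGroup.lift F).comp (FreeGroup.map (q₀ * ·)) := by
    ext1 i
    simp [h]
  exact DFunLike.congr_fun this ω

/-- The word reduction. -/
theorem reduction {K : Type u} [Group K] {Q : Type v} [Group Q] (π : K →* Q) (k₀ : K)
    (w : Coprod K (FreeGroup Unit)) :
    ∃ ω : FreeGroup Q, es ω = xs K w ∧
      ∀ (H : Type w) [Group H] (Ψ : K →* H) (F : Q → H),
        (∀ k q, Ψ k * F q * (Ψ k)⁻¹ = F (π k * q)) →
        vl Ψ (F 1 * Ψ k₀) w = FreeGroup.lift F ω * Ψ (vl (MonoidHom.id K) k₀ w) := by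
  let S : Subgroup (Coprod K (FreeGroup Unit)) :=
    { carrier := {w | ∃ ω : FreeGroup Q, es ω = xs K w ∧
        ∀ (H : Type w) [Group H] (Ψ : K →* H) (F : Q → H),
          (∀ k q, Ψ k * F q * (Ψ k)⁻¹ = F (π k * q)) →
          vl Ψ (F 1 * Ψ k₀) w = FreeGroup.lift F ω * Ψ (vl (MonoidHom.id K) k₀ w)}
      one_mem' := by
        refine ⟨1, by simp, fun H _ Ψ F hF => ?_⟩
        simp
      mul_mem' := by
        rintro a b ⟨ω, h1, h2⟩ ⟨ω', h1', h2'⟩
        refine ⟨ω * FreeGroup.map (π (vl (MonoidHom.id K) k₀ a) * ·) ω', ?_, fun H _ Ψ F hF => ?_⟩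
        · rw [map_mul, map_mul, es_map, h1, h1']
        · rw [map_mul, h2 H Ψ F hF, h2' H Ψ F hF, map_mul, map_mul, map_mul,
            ← conj_lift F (Ψ (vl (MonoidHom.id K) k₀ a)) _ (hF _)]
          group
      inv_mem' := by
        rintro a ⟨ω, h1, h2⟩
        refine ⟨FreeGroup.map (π ((vl (MonoidHom.id K) k₀ a)⁻¹) * ·) ω⁻¹, ?_,
          fun H _ Ψ F hF => ?_⟩
        · rw [es_map, map_inv, map_inv, h1]
        · rw [map_inv, h2 H Ψ F hF, map_inv (vl (MonoidHom.id K) k₀),
            ← conj_lift F (Ψ ((vl (MonoidHom.id K) k₀ a)⁻¹)) _ (hF _), map_inv Ψ,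
            map_inv (FreeGroup.lift F)]
          group }
  refine word_ind S ?_ ?_ w
  · intro k
    refine ⟨1, by simp [xs], fun H _ Ψ F hF => ?_⟩
    simp [vl]
  · refine ⟨FreeGroup.of 1, by simp [xs, es], fun H _ Ψ F hF => ?_⟩
    simp [vl]

end Q28.UM
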