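import Mathlib
import Pool.Agent.Q28.UM.Red

/-!
The embedding theorem.
-/

set_option autoImplicit false

namespace Q28.UM

universe u v w

open Monoid

/-- Right translation on `X → Q → U`. -/
def tr (X Q U : Type*) [Group Q] [Group U] : Q →* MulAut (X → Q → U) where
  toFun p :=
    { toFun := fun F χ q => F χ (q * p)
      invFun := fun F χ q => F χ (q * p⁻¹)
      left_inv := by intro F; funext χ q; simp
      right_inv := by intro F; funext χ q; simp
      map_mul' := fun F F' => rfl }
  map_one' := by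
    apply MulEquiv.ext
    intro F
    funext χ q
    change F χ (q * 1) = F χ q
    rw [mul_one]
  map_mul' a b := by
    apply MulEquiv.ext
    intro F
    funext χ q
    change F χ (q * (a * b)) = F χ (q * a * b)
    rw [mul_assoc]

/-- Values in a commutative group. -/
theorem vl_comm {K : Type u} [Group K] {Q : Type v} [CommGroup Q] (π : K →* Q) (q : Q)
    (w : Coprod K (FreeGroup Unit)) (hw : xs K w = Multiplicative.ofAdd (1 : ℤ)) :
    vl π q w = vl π 1 w * q := by
  have h : vl π q = vl π 1 * ((zpowersHom Q q).comp (xs K)) := by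
    apply Coprod.hom_ext
    · ext k
      simp [vl, xs]
    · ext i
      simp [vl, xs]
  rw [h, MonoidHom.mul_apply, MonoidHom.comp_apply, hw]
  simp

/-- Values and homomorphisms. -/
theorem vl_map {K : Type u} [Group K] {H : Type v} [Group H] {H' : Type w} [Group H']
    (f : H →* H') (Ψ : K →* H) (h : H) (w : Coprod K (FreeGroup Unit)) :
    f (vl Ψ h w) = vl (f.comp Ψ) (f h) w := by
  have : f.comp (vl Ψ h) = vl (f.comp Ψ) (f h) := by
    apply Coprod.hom_ext
    · ext k
      simp [vl]
    · ext i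
      simp [vl]
  rw [← this]; rfl

/-- The main embedding. -/
theorem main_one {G : Type u} [Group G] (A : Subgroup G) [A.Normal] (n : ℕ)
    (hn : derivedSeries G n ≤ A) (hA : ∀ a ∈ A, ∀ b ∈ A, a * b = b * a)
    {K : Type u} [Group K] (ι : K →* G) (hK : ∀ a b : K, ι (a * b * a⁻¹ * b⁻¹) ∈ A)
    (w : Coprod K (FreeGroup Unit)) (hw : xs K w = Multiplicative.ofAdd (1 : ℤ)) :
    ∃ (H : Type u) (_ : Group H), Group.IsSolvable H ∧ ∃ φ : G →* H, Function.Injective φ ∧
      ∃ h : H, vl (φ.comp ι) h w = 1 := by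
  classical
  let cA : CommGroup A := { (inferInstance : Group A) with
    mul_comm := fun a b => Subtype.ext (hA a.1 a.2 b.1 b.2) }
  let PP : Type u := G ⧸ A
  let π' : K →* PP := (QuotientGroup.mk' A).comp ι
  let Q₀ : Subgroup PP := π'.range
  let cQ : CommGroup Q₀ := { (inferInstance : Group Q₀) with
    mul_comm := by
      rintro ⟨_, a, rfl⟩ ⟨_, b, rfl⟩
      apply Subtype.ext
      change π' a * π' b = π' b * π' a
      have h1 : π' (a * b * a⁻¹ * b⁻¹) = 1 := (QuotientGroup.eq_one_iff _).2 (hK a b)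
      rw [map_mul, map_mul, map_mul, map_inv, map_inv, mul_inv_eq_one,
        mul_inv_eq_iff_eq_mul] at h1
      exact h1 }
  let π : K →* Q₀ := π'.rangeRestrict
  let k₀ : K := (vl (MonoidHom.id K) 1 w)⁻¹
  obtain ⟨ω, hω, red⟩ := reduction.{u, u, u} π k₀ w
  rw [hw] at hω
  obtain ⟨m, hm⟩ := step2 ω hω
  let X : Type u := Additive A →+ TT
  let s : PP → G := Quotient.out
  have hs : ∀ q : PP, (QuotientGroup.mk (s q) : G ⧸ A) = q := fun q => Quotient.out_eq' q
  have kmem : ∀ (g : G) (q : PP), s q * g * (s (q * (QuotientGroup.mk g : G ⧸ A)))⁻¹ ∈ A := by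
    intro g q
    rw [← QuotientGroup.eq_one_iff, QuotientGroup.mk_mul, QuotientGroup.mk_mul,
      QuotientGroup.mk_inv, hs, hs]
    simp
  let κ : G → PP → A := fun g q => ⟨_, kmem g q⟩
  have κmul : ∀ g h q, κ (g * h) q = κ g q * κ h (q * (QuotientGroup.mk g : G ⧸ A)) := by
    intro g h q
    apply Subtype.ext
    simp only [κ, Subgroup.coe_mul, QuotientGroup.mk_mul]
    rw [mul_assoc q (QuotientGroup.mk g : G ⧸ A)]
    group
  have κone : ∀ q, κ 1 q = 1 := by
    intro q
    have := κmul 1 1 q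
    simp only [mul_one, QuotientGroup.mk_one] at this
    exact mul_eq_left.1 this.symm
  -- the element to be killed
  let d' : K := vl (MonoidHom.id K) k₀ w
  have hd' : ι d' ∈ A := by
    have h1 : π d' = 1 := by
      change π (vl (MonoidHom.id K) k₀ w) = 1
      rw [vl_map, vl_comm _ _ _ hw]
      have h2 : vl (π.comp (MonoidHom.id K)) 1 w = π (vl (MonoidHom.id K) 1 w) := by
        rw [vl_map, map_one]
      rw [h2, ← map_mul]
      change π (_ * (vl (MonoidHom.id K) 1 w)⁻¹) = 1
      rw [mul_inv_cancel, map_one]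
    have h2 : π' d' = 1 := congrArg Subtype.val h1
    exact (QuotientGroup.eq_one_iff _).1 h2
  let d : G := (ι d')⁻¹
  have hdA : d ∈ A := A.inv_mem hd'
  have hd1 : (QuotientGroup.mk d : G ⧸ A) = 1 := (QuotientGroup.eq_one_iff d).2 hdA
  -- cosets
  let r : PP ⧸ Q₀ → PP := Quotient.out
  have hr : ∀ p : PP, (r (p : PP ⧸ Q₀))⁻¹ * p ∈ Q₀ := by
    intro p
    rw [← QuotientGroup.eq]
    exact Quotient.out_eq' _
  let qq : PP → Q₀ := fun p => ⟨_, hr p⟩
  have jmul : ∀ (p : PP) (q : Q₀), ((p * (q : PP) : PP) : PP ⧸ Q₀) = (p : PP ⧸ Q₀) := by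
    intro p q
    rw [eq_comm, QuotientGroup.eq, inv_mul_cancel_left]
    exact q.2
  have qmul : ∀ (p : PP) (q : Q₀), qq (p * (q : PP)) = qq p * q := by
    intro p q
    apply Subtype.ext
    change (r ((p * (q : PP) : PP) : PP ⧸ Q₀))⁻¹ * (p * q) = (r (p : PP ⧸ Q₀))⁻¹ * p * q
    rw [jmul, mul_assoc]
  have rq : ∀ p : PP, r (p : PP ⧸ Q₀) * (qq p : PP) = p := by
    intro p
    exact mul_inv_cancel_left _ _
  obtain ⟨U, _, c, F', hU, cinj, ccen, hF'⟩ := hm (X × (PP ⧸ Q₀))
    (fun j q => j.1 (Additive.ofMul (κ d (r j.2 * (q : PP)))))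
  let corner : TT → U := fun t => c (Multiplicative.ofAdd t)
  have corner_add : ∀ a b, corner (a + b) = corner a * corner b := by
    intro a b
    change c (Multiplicative.ofAdd (a + b)) = _
    rw [ofAdd_add, map_mul]
  have corner_zero : corner 0 = 1 := by
    change c (Multiplicative.ofAdd 0) = _
    rw [ofAdd_zero, map_one]
  let N : Type u := X → PP → U
  let φ : PP →* MulAut N := tr X PP U
  let cf : G → N := fun g χ q => corner (χ (Additive.ofMul (κ g q)))
  let Ψ : G →* N ⋊[φ] PP :=
    { toFun := fun g => ⟨cf g, QuotientGroup.mk g⟩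
      map_one' := by
        apply SemidirectProduct.ext
        · funext χ q
          change corner (χ (Additive.ofMul (κ 1 q))) = 1
          rw [κone, ofMul_one, map_zero, corner_zero]
        · rfl
      map_mul' := by
        intro g h
        apply SemidirectProduct.ext
        · funext χ q
          change corner (χ (Additive.ofMul (κ (g * h) q))) =
            corner (χ (Additive.ofMul (κ g q))) *
              corner (χ (Additive.ofMul (κ h (q * (QuotientGroup.mk g : G ⧸ A)))))
          rw [κmul, ofMul_mul, map_add, corner_add]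
        · rfl }
  have Ψleft : ∀ g, (Ψ g).left = cf g := fun g => rfl
  have Ψright : ∀ g, (Ψ g).right = (QuotientGroup.mk g : G ⧸ A) := fun g => rfl
  have cinj' : ∀ s t, corner s = corner t → s = t := fun s t hst => cinj hst
  have Ψinj : Function.Injective Ψ := by
    rw [injective_iff_map_eq_one]
    intro g hg
    have h1 : (QuotientGroup.mk g : G ⧸ A) = 1 := by
      rw [← Ψright, hg]; rfl
    have h2 : cf g = 1 := by rw [← Ψleft, hg]; rfl
    have h3 : κ g 1 = 1 := by
      have : Additive.ofMul (κ g 1) = 0 := by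
        apply CharacterModule.eq_zero_of_character_apply
        intro χ
        have h4 : cf g χ 1 = corner 0 := by rw [h2, corner_zero]; rfl
        exact cinj' _ _ h4
      exact this
    have h5 := congrArg Subtype.val h3
    change s 1 * g * (s (1 * (QuotientGroup.mk g : G ⧸ A)))⁻¹ = 1 at h5
    rw [h1, mul_one] at h5
    have h6 : s 1 * g = s 1 := by rwa [mul_inv_eq_one] at h5
    exact mul_eq_left.1 h6
  have central : ∀ g (M : N), cf g * M = M * cf g := by
    intro g M
    funext χ q
    exact ccen _ _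
  have conj : ∀ (g : G) (M : N), Ψ g * SemidirectProduct.inl M * (Ψ g)⁻¹ =
      SemidirectProduct.inl (φ (QuotientGroup.mk g : G ⧸ A) M) := by
    intro g M
    rw [mul_inv_eq_iff_eq_mul]
    apply SemidirectProduct.ext
    · rw [SemidirectProduct.mul_left, SemidirectProduct.mul_left, Ψleft, Ψright,
        SemidirectProduct.left_inl, SemidirectProduct.left_inl, SemidirectProduct.right_inl,
        map_one, MulAut.one_apply, central]
    · rw [SemidirectProduct.mul_right, SemidirectProduct.mul_right,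
        SemidirectProduct.right_inl, SemidirectProduct.right_inl, mul_one, one_mul]
  have Ψd : Ψ d = SemidirectProduct.inl (cf d) := by
    apply SemidirectProduct.ext
    · rfl
    · rw [Ψright, hd1]; rfl
  let FF : N := fun χ p => F' (χ, (p : PP ⧸ Q₀)) (qq p)
  let F : Q₀ → N ⋊[φ] PP := fun q => SemidirectProduct.inl (φ (q : PP) FF)
  have hF : ∀ k q, (Ψ.comp ι) k * F q * ((Ψ.comp ι) k)⁻¹ = F (π k * q) := by
    intro k q
    rw [MonoidHom.comp_apply]
    change Ψ (ι k) * SemidirectProduct.inl (φ (q : PP) FF) * (Ψ (ι k))⁻¹ = _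
    rw [conj]
    change SemidirectProduct.inl ((φ (π' k) * φ (q : PP)) FF) = _
    rw [← map_mul]
    rfl
  have e := red (N ⋊[φ] PP) (Ψ.comp ι) F hF
  have e1 : FreeGroup.lift F ω = Ψ d := by
    have h1 : FreeGroup.lift F ω =
        SemidirectProduct.inl (FreeGroup.lift (fun q : Q₀ => φ (q : PP) FF) ω) := by
      have : FreeGroup.lift F = (SemidirectProduct.inl : N →* N ⋊[φ] PP).comp
          (FreeGroup.lift (fun q : Q₀ => φ (q : PP) FF)) := by
        ext1 q
        simp [F]
      rw [this]; rfl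
    rw [h1, Ψd]
    congr 1
    funext χ p
    let ev : N →* U := (Pi.evalMonoidHom (fun _ : PP => U) p).comp
      (Pi.evalMonoidHom (fun _ : X => PP → U) χ)
    have h2 : ev (FreeGroup.lift (fun q : Q₀ => φ (q : PP) FF) ω) =
        FreeGroup.lift (fun q : Q₀ => F' (χ, (p : PP ⧸ Q₀)) (qq p * q)) ω := by
      have : ev.comp (FreeGroup.lift (fun q : Q₀ => φ (q : PP) FF)) =
          FreeGroup.lift (fun q : Q₀ => F' (χ, (p : PP ⧸ Q₀)) (qq p * q)) := by
        ext1 q
        simp only [MonoidHom.comp_apply, FreeGroup.lift_apply_of]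
        change F' (χ, ((p * (q : PP) : PP) : PP ⧸ Q₀)) (qq (p * (q : PP))) = _
        rw [jmul, qmul]
      rw [← this]; rfl
    change ev (FreeGroup.lift (fun q : Q₀ => φ (q : PP) FF) ω) = cf d χ p
    rw [h2, hF' (χ, (p : PP ⧸ Q₀)) (qq p)]
    change c (Multiplicative.ofAdd (χ (Additive.ofMul (κ d (r (p : PP ⧸ Q₀) * (qq p : PP)))))) =
      c (Multiplicative.ofAdd (χ (Additive.ofMul (κ d p))))
    rw [rq]
  refine ⟨N ⋊[φ] PP, inferInstance, ?_, Ψ, Ψinj, F 1 * (Ψ.comp ι) k₀, ?_⟩
  · have hN : Group.IsSolvable N := ⟨⟨m, ds_fun m (ds_fun m hU)⟩⟩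
    have hPP : Group.IsSolvable PP := ⟨⟨n, by
      have hsur : Function.Surjective (QuotientGroup.mk' A) := QuotientGroup.mk'_surjective A
      have h7 := map_derivedSeries_eq hsur n
      rw [← h7, Subgroup.map_eq_bot_iff, QuotientGroup.ker_mk']
      exact hn⟩⟩
    exact Group.isSolvable_of_ker_le_range (SemidirectProduct.inl : N →* N ⋊[φ] PP)
      (SemidirectProduct.rightHom : N ⋊[φ] PP →* PP)
      (le_of_eq SemidirectProduct.range_inl_eq_ker_rightHom.symm)
  · rw [e, e1]
    change Ψ ((ι d')⁻¹) * Ψ (ι d') = 1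
    rw [← map_mul, inv_mul_cancel, map_one]

/-- The main embedding, exponent sum plus or minus one. -/
theorem main {G : Type u} [Group G] (A : Subgroup G) [A.Normal] (n : ℕ)
    (hn : derivedSeries G n ≤ A) (hA : ∀ a ∈ A, ∀ b ∈ A, a * b = b * a)
    {K : Type u} [Group K] (ι : K →* G) (hK : ∀ a b : K, ι (a * b * a⁻¹ * b⁻¹) ∈ A)
    (w : Coprod K (FreeGroup Unit)) (hw : xs K w = Multiplicative.ofAdd (1 : ℤ) ∨
      xs K w = Multiplicative.ofAdd (-1 : ℤ)) :
    ∃ (H : Type u) (_ : Group H), Group.IsSolvable H ∧ ∃ φ : G →* H, Function.Injective φ ∧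
      ∃ h : H, vl (φ.comp ι) h w = 1 := by
  rcases hw with hw | hw
  · exact main_one A n hn hA ι hK w hw
  · obtain ⟨H, _, hH, φ, hφ, h, hh⟩ := main_one A n hn hA ι hK w⁻¹ (by rw [map_inv, hw]; rfl)
    refine ⟨H, inferInstance, hH, φ, hφ, h, ?_⟩
    rw [map_inv] at hh
    exact inv_eq_one.1 hh

end Q28.UM
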